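import Pool.Agent.T2h30.PF.Stm
import Pool.Agent.T2h30.PA.T_A

/-!
# Project PA (helper30), task A: from the center `P e` with one more leaf to the center `P (e + 1)`

Lean by helper2. The first part is also used for task B.
-/

set_option autoImplicit false

namespace Pool.Agent.T2h30.PF.A

open Pool.Agent.Y110.FJ Pool.Agent.Y462.SS Pool.Agent.T2h30.PA

open Pool.Agent.T2h30.PA.A (incl_inj incl_incl)

variable {X : Type} {d : X} {P A B : ℕ → Subgroup (T X)}

theorem A_le_P (h : Tw d P A B) (k : ℕ) : A k ≤ P k := fun g hg => ((h.A_iff k g).1 hg).1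

theorem P_mono (h : Tw d P A B) {k l : ℕ} (hkl : k ≤ l) : P k ≤ P l :=
  monotone_nat_of_le_succ h.tw.P_le hkl

theorem B_mono (h : Tw d P A B) {k l : ℕ} (hkl : k ≤ l) : B k ≤ B l :=
  monotone_nat_of_le_succ h.tw.B_le hkl

theorem Kf_le_P (h : Tw d P A B) {ι : Type} {c : ι → ℕ} {m : ℕ} (hc : ∀ i, c i < m)
    (j : ι × Bool) : Kf P B c j ≤ P m := by
  obtain ⟨i, b⟩ := j
  cases b
  · exact P_mono h (hc i).le
  · exact (h.tw.B_le_P (c i + 1)).trans (P_mono h (hc i))

theorem Kf_le_Lf (h : Tw d P A B) {ι : Type} {c E : ι → ℕ} (hc : ∀ i, c i ≤ E i)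
    (j : ι × Bool) : Kf P B c j ≤ Lf P B E j := by
  obtain ⟨i, b⟩ := j
  cases b
  · exact P_mono h (hc i)
  · exact B_mono h (Nat.succ_le_succ (hc i))

theorem Kx_le_P (h : Tw d P A B) {ι : Type} {c : ι → ℕ} {m F : ℕ} (hc : ∀ i, c i < m)
    (hm : m ≤ F) (j : Option (ι × Bool)) : Ky P B (A m) c j ≤ P F := by
  cases j with
  | none => exact (A_le_P h m).trans (P_mono h hm)
  | some j => exact (Kf_le_P h hc j).trans (P_mono h hm)

theorem Kx_le_Lx (h : Tw d P A B) {ι : Type} {c E : ι → ℕ} {m F : ℕ} (hc : ∀ i, c i ≤ E i)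
    (hm : m ≤ F) (j : Option (ι × Bool)) : Ky P B (A m) c j ≤ Lx P B F E j := by
  cases j with
  | none => exact (h.A_le_B m).trans (B_mono h (Nat.succ_le_succ hm))
  | some j => exact Kf_le_Lf h hc j

section

variable {ι : Type} {c E : ι → ℕ} {m F : ℕ}

/-- the edge maps to the center -/
noncomputable abbrev fx (P B : ℕ → Subgroup (T X)) (F : ℕ) (K : Subgroup (T X)) (c : ι → ℕ)
    (j : Option (ι × Bool)) : Ky P B K c j →* P F := incl (Ky P B K c j) (P F)

/-- the edge maps to the leaves -/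
noncomputable abbrev kx (P B : ℕ → Subgroup (T X)) (F : ℕ) (K : Subgroup (T X)) (c E : ι → ℕ)
    (j : Option (ι × Bool)) : Ky P B K c j →* Lx P B F E j := incl (Ky P B K c j) (Lx P B F E j)

theorem fk_eq (h : Tw d P A B) (hcE : ∀ i, c i ≤ E i) (hc : ∀ i, c i < m) (hm : m ≤ F)
    (j : Option (ι × Bool)) (k : Ky P B (A m) c j) :
    (P F).subtype (fx P B F (A m) c j k) = (Lx P B F E j).subtype (kx P B F (A m) c E j k) := by
  change ((incl (Ky P B (A m) c j) (P F) k : P F) : T X) =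
    ((incl (Ky P B (A m) c j) (Lx P B F E j) k : Lx P B F E j) : T X)
  rw [incl_apply (Kx_le_P h hc hm j), incl_apply (Kx_le_Lx h hcE hm j)]

/-- the projection of the star to the tree automorphisms -/
noncomputable def toT (h : Tw d P A B) (hcE : ∀ i, c i ≤ E i) (hc : ∀ i, c i < m) (hm : m ≤ F) :
    SPy P B F (A m) c E →* T X :=
  starLift (fx P B F (A m) c) (kx P B F (A m) c E) (P F).subtype (fun j => (Lx P B F E j).subtype)
    (fk_eq h hcE hc hm)

theorem toT_C (h : Tw d P A B) (hcE : ∀ i, c i ≤ E i) (hc : ∀ i, c i < m) (hm : m ≤ F)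
    (a : P F) : toT h hcE hc hm (starC (fx P B F (A m) c) (kx P B F (A m) c E) a) = a :=
  starLift_C (fx P B F (A m) c) (kx P B F (A m) c E) (P F).subtype (fun j => (Lx P B F E j).subtype)
    (fk_eq h hcE hc hm) a

theorem toT_L (h : Tw d P A B) (hcE : ∀ i, c i ≤ E i) (hc : ∀ i, c i < m) (hm : m ≤ F)
    (j : Option (ι × Bool)) (l : Lx P B F E j) :
    toT h hcE hc hm (starL (fx P B F (A m) c) (kx P B F (A m) c E) j l) = l :=
  starLift_L (fx P B F (A m) c) (kx P B F (A m) c E) (P F).subtype (fun j => (Lx P B F E j).subtype)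
    (fk_eq h hcE hc hm) j l

theorem SPx_C_inj (h : Tw d P A B) (hcE : ∀ i, c i ≤ E i) (hc : ∀ i, c i < m) (hm : m ≤ F) :
    Function.Injective (starC (fx P B F (A m) c) (kx P B F (A m) c E)) := by
  intro a b hab
  apply Subtype.ext
  have h1 := congrArg (toT h hcE hc hm) hab
  rwa [toT_C, toT_C] at h1

theorem SPx_L_inj (h : Tw d P A B) (hcE : ∀ i, c i ≤ E i) (hc : ∀ i, c i < m) (hm : m ≤ F)
    (j : Option (ι × Bool)) :
    Function.Injective (starL (fx P B F (A m) c) (kx P B F (A m) c E) j) := by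
  intro a b hab
  apply Subtype.ext
  have h1 := congrArg (toT h hcE hc hm) hab
  rwa [toT_L, toT_L] at h1

/-- the center of the cover -/
noncomputable def HC (P A B : ℕ → Subgroup (T X)) (m F : ℕ) (c E : ι → ℕ) :
    P m →* SPy P B F (A m) c E :=
  (starC (fx P B F (A m) c) (kx P B F (A m) c E)).comp (incl (P m) (P F))

/-- the leaf of the cover -/
noncomputable def HL (P A B : ℕ → Subgroup (T X)) (m F : ℕ) (c E : ι → ℕ) :
    B (m + 1) →* SPy P B F (A m) c E :=
  (starL (fx P B F (A m) c) (kx P B F (A m) c E) none).comp (incl (B (m + 1)) (Lx P B F E none))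

theorem HCL (h : Tw d P A B) (c E : ι → ℕ) (hm : m ≤ F) (k : A m) :
    HC P A B m F c E (incl (A m) (P m) k) = HL P A B m F c E (incl (A m) (B (m + 1)) k) := by
  have h1 := star_glue (fx P B F (A m) c) (kx P B F (A m) c E) none k
  change starC (fx P B F (A m) c) (kx P B F (A m) c E) (incl (P m) (P F) (incl (A m) (P m) k)) =
    starL (fx P B F (A m) c) (kx P B F (A m) c E) none
      (incl (B (m + 1)) (Lx P B F E none) (incl (A m) (B (m + 1)) k))
  rw [incl_incl (A_le_P h m) (P_mono h hm)]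
  have h2 : incl (B (m + 1)) (Lx P B F E none) (incl (A m) (B (m + 1)) k) =
      incl (A m) (Lx P B F E none) k :=
    incl_incl (h.A_le_B m) (B_mono h (Nat.succ_le_succ hm)) k
  rw [h2]
  exact h1

/-- the map of the cover of `P (m + 1)` to the star with center `P F` and the additional leaf
`B (F + 1)` -/
noncomputable def HH (h : Tw d P A B) (c E : ι → ℕ) (hm : m ≤ F) :
    Gam P A B m →* SPy P B F (A m) c E :=
  starLift (fun _ : Unit => incl (A m) (P m)) (fun _ : Unit => incl (A m) (B (m + 1)))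
    (HC P A B m F c E) (fun _ => HL P A B m F c E) (fun _ k => HCL h c E hm k)

theorem HH_C (h : Tw d P A B) (c E : ι → ℕ) (hm : m ≤ F) (a : P m) :
    HH h c E hm (gC P A B m a) = HC P A B m F c E a :=
  starLift_C (fun _ : Unit => incl (A m) (P m)) (fun _ : Unit => incl (A m) (B (m + 1)))
    (HC P A B m F c E) (fun _ => HL P A B m F c E) (fun _ k => HCL h c E hm k) a

theorem HH_L (h : Tw d P A B) (c E : ι → ℕ) (hm : m ≤ F) (b : B (m + 1)) :
    HH h c E hm (gL P A B m b) = HL P A B m F c E b :=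
  starLift_L (fun _ : Unit => incl (A m) (P m)) (fun _ : Unit => incl (A m) (B (m + 1)))
    (HC P A B m F c E) (fun _ => HL P A B m F c E) (fun _ k => HCL h c E hm k) () b

theorem HH_inj (hJJ : S_JJ) (h : Tw d P A B) (hcE : ∀ i, c i ≤ E i) (hc : ∀ i, c i < m)
    (hm : m ≤ F) : Function.Injective (HH h c E hm) := by
  refine hJJ (P m) Unit (fun _ => B (m + 1)) (fun _ => A m)
    (fun _ : Unit => incl (A m) (P m)) (fun _ : Unit => incl (A m) (B (m + 1)))
    (P F) (Option (ι × Bool)) (fun j => Lx P B F E j) (fun j => Ky P B (A m) c j)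
    (fx P B F (A m) c) (kx P B F (A m) c E) (T X) (P F).subtype
    (fun j => (Lx P B F E j).subtype) (fk_eq h hcE hc hm) ?_ ?_ (fun _ => none)
    (incl (P m) (P F)) (fun _ => incl (B (m + 1)) (Lx P B F E none)) (HH h c E hm)
    ?_ ?_ ?_ ?_ ?_ ?_ ?_ ?_
  · exact Subtype.val_injective
  · exact fun j => Subtype.val_injective
  · exact fun _ _ _ => rfl
  · exact incl_inj (P_mono h hm)
  · exact fun _ => incl_inj (K := B (m + 1)) (L := Lx P B F E none)
      (B_mono h (Nat.succ_le_succ hm))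
  · intro _ k
    exact ⟨k, (incl_incl (A_le_P h m) (P_mono h hm) k).symm,
      (incl_incl (K := A m) (L := B (m + 1)) (M := Lx P B F E none) (h.A_le_B m)
        (B_mono h (Nat.succ_le_succ hm)) k).symm⟩
  · rintro _ a ⟨k', hk'⟩
    refine ⟨k', ?_⟩
    apply incl_inj (P_mono h hm)
    exact (incl_incl (A_le_P h m) (P_mono h hm) k').trans hk'
  · rintro _ a ⟨k', hk'⟩
    refine ⟨k', ?_⟩
    apply incl_inj (K := B (m + 1)) (L := Lx P B F E none) (B_mono h (Nat.succ_le_succ hm))
    exact (incl_incl (K := A m) (L := B (m + 1)) (M := Lx P B F E none) (h.A_le_B m)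
        (B_mono h (Nat.succ_le_succ hm)) k').trans hk'
  · exact fun a => HH_C h c E hm a
  · exact fun _ b => HH_L h c E hm b

/-- the leaves of the layers in the star -/
noncomputable def LS (P A B : ℕ → Subgroup (T X)) (F m : ℕ) (c E : ι → ℕ) (j : ι × Bool) :
    Lf P B E j →* SPy P B F (A m) c E :=
  starL (fx P B F (A m) c) (kx P B F (A m) c E) (some j)

theorem HC_some (h : Tw d P A B) (c E : ι → ℕ) (hc : ∀ i, c i < m) (hm : m ≤ F) (j : ι × Bool)
    (k : Kf P B c j) : HC P A B m F c E (incl (Kf P B c j) (P m) k) =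
      LS P A B F m c E j (kap P B c E j k) := by
  have h1 := star_glue (fx P B F (A m) c) (kx P B F (A m) c E) (some j) k
  change starC (fx P B F (A m) c) (kx P B F (A m) c E)
    (incl (P m) (P F) (incl (Kf P B c j) (P m) k)) = _
  rw [incl_incl (Kf_le_P h hc j) (P_mono h hm)]
  exact h1

theorem LS_inj (h : Tw d P A B) (hcE : ∀ i, c i ≤ E i) (hc : ∀ i, c i < m) (hm : m ≤ F)
    (j : ι × Bool) : Function.Injective (LS P A B F m c E j) :=
  SPx_L_inj h hcE hc hm (some j)

/-- the cover with the leaves attached maps injectively to the star -/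
theorem finish (hTT : S_TT) (hJJ : S_JJ) {C : ∀ (G : Type) [Group G], Prop} (hC : ClosedE C)
    (h : Tw d P A B) (hcE : ∀ i, c i ≤ E i) (hc : ∀ i, c i < m)
    (hm : m ≤ F) (hSPx : C (SPy P B F (A m) c E)) {ι' : Type} {c' E' : ι' → ℕ}
    (φ : ∀ j : ι' × Bool, Kf P B c' j →* Gam P A B m)
    (g : ∀ j : ι' × Bool, Lf P B E' j →* SPy P B F (A m) c E)
    (hg : ∀ j, Function.Injective (g j))
    (hcomp : ∀ j k, HH h c E hm (φ j k) = g j (kap P B c' E' j k)) :
    Function.Injective (starC φ (kap P B c' E')) ∧ C (Star φ (kap P B c' E')) := by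
  refine ⟨fun a b hab => ?_, ?_⟩
  · apply HH_inj hJJ h hcE hc hm
    have h1 := congrArg (starLift φ (kap P B c' E') (HH h c E hm) g hcomp) hab
    rwa [starLift_C, starLift_C] at h1
  · exact hTT C hC _ _ _ _ φ (kap P B c' E') _ (HH h c E hm) g hcomp
      (HH_inj hJJ h hcE hc hm) hg hSPx

end

theorem t_A : S_A := by
  intro hREC hTT hJJ hLIM C hC X hX d P A B h ι c E e hcE hc hSPx
  obtain ⟨ψ, π, hG⟩ := hREC X d P A B h e
  have hK := Kf_le_P h hc
  obtain ⟨φ, hφ⟩ : ∃ φ : ∀ j : ι × Bool, Kf P B c j →* Gam P A B e,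
      ∀ j k, φ j k = gC P A B e (incl (Kf P B c j) (P e) k) :=
    ⟨fun j => (gC P A B e).comp (incl (Kf P B c j) (P e)), fun _ _ => rfl⟩
  have hfin := finish hTT hJJ hC h hcE hc le_rfl hSPx φ (LS P A B e e c E)
    (LS_inj h hcE hc le_rfl) (fun j k => by
      rw [hφ, HH_C]
      exact HC_some h c E hc le_rfl j k)
  refine hLIM hTT C hC X hX d P B h.tw ι c E (e + 1) hcE (fun i => (hc i).trans (Nat.lt_succ_self e))
    (Gam P A B e) ψ π hG.cov φ ?_ hfin.1 hfin.2
  constructor
  · intro j k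
    rw [hφ, hG.piC, incl_apply (hK j)]
  · intro i k k' x hk
    rw [hφ, hφ]
    apply hG.secC
    rw [incl_apply (hK _), incl_apply (hK _), hk]
  · intro i k k' hk
    rw [hφ, hφ]
    apply hG.secC
    rw [incl_apply (hK _), incl_apply (hK _), hk]
  · intro i k k' x hx hk
    rw [hφ, hφ]
    apply hG.secC
    rw [incl_apply (hK _), incl_apply (hK _), hk]

end Pool.Agent.T2h30.PF.A
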