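import Pool.Agent.T2h30.PF.Stm2
import Pool.Agent.Y430.SS.Lf
import Pool.Agent.Y812.SS.Wr

/-!
# The groups `Bs d Q` are in the class (project PF, part BC)
-/

set_option autoImplicit false

namespace Pool.Agent.T2h30.PF.BC

open Pool.Agent.Y110.FJ Pool.Agent.Y462.SS Pool.Agent.T2h30.PA

variable {X : Type}

open Classical in
/-- the data of one element at one place -/
noncomputable def dat (d : X) (Q : Subgroup (T X)) (b : Bs d Q) (i : ℕ) : Wr X Q :=
  ⟨fun x => if h : x = d then 1 else ⟨sec (sd d i b.1) x, b.2.2.1 i x h⟩, root (sd d i b.1)⟩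

theorem dat_s (d : X) (Q : Subgroup (T X)) (b : Bs d Q) (i : ℕ) (x : X) (h : x ≠ d) :
    (((dat d Q b i).s x : Q) : T X) = sec (sd d i b.1) x := by
  unfold dat
  simp only
  rw [dif_neg h]

theorem dat_d (d : X) (Q : Subgroup (T X)) (b : Bs d Q) (i : ℕ) :
    (dat d Q b i).s d = 1 := by
  unfold dat
  simp

theorem dat_mul (d : X) (Q : Subgroup (T X)) (a b : Bs d Q) (i : ℕ) :
    dat d Q (a * b) i = dat d Q a i * dat d Q b i := by
  have hm : sd d i (a * b).1 = sd d i a.1 * sd d i b.1 := sd_mul d i a.1 b.1 b.2.1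
  apply Wr.ext
  · funext x
    rw [Wr.mul_s]
    by_cases h : x = d
    · subst h
      have h1 : (dat x Q b i).p x = x := b.2.1 i
      rw [h1, dat_d, dat_d, dat_d, one_mul]
    · have h1 : (dat d Q b i).p x ≠ d := by
        intro h2
        apply h
        have h3 : (dat d Q b i).p d = d := b.2.1 i
        exact (dat d Q b i).p.injective (h2.trans h3.symm)
      apply Subtype.ext
      show (((dat d Q (a * b) i).s x : Q) : T X) =
        ((dat d Q a i).s ((dat d Q b i).p x) : T X) * ((dat d Q b i).s x : T X)
      rw [dat_s d Q (a * b) i x h, dat_s d Q a i _ h1, dat_s d Q b i x h, hm, sec_mul]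
      rfl
  · rw [Wr.mul_p]
    show root (sd d i (a * b).1) = root (sd d i a.1) * root (sd d i b.1)
    rw [hm, root_mul]

/-- the data at one place as a homomorphism -/
noncomputable def datH (d : X) (Q : Subgroup (T X)) (i : ℕ) : Bs d Q →* Wr X Q :=
  MonoidHom.mk' (fun b => dat d Q b i) (fun a b => dat_mul d Q a b i)

theorem eq_of_dat (d : X) (Q : Subgroup (T X)) (a b : Bs d Q)
    (h : ∀ i, dat d Q a i = dat d Q b i) : a = b := by
  have key : ∀ (w : List X) (i : ℕ), (sd d i a.1).1 w = (sd d i b.1).1 w := by
    intro w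
    induction w with
    | nil => intro i; rw [nil_eq, nil_eq]
    | cons x w ih =>
      intro i
      have hr : root (sd d i a.1) = root (sd d i b.1) := congrArg Wr.p (h i)
      rw [cons_eq, cons_eq, hr]
      congr 1
      by_cases hx : x = d
      · subst hx
        rw [← sd_succ', ← sd_succ']
        exact ih (i + 1)
      · rw [← dat_s d Q a i x hx, ← dat_s d Q b i x hx, h i]
  apply Subtype.ext
  apply Subtype.ext
  apply Equiv.ext
  intro w
  exact key w 0

/-- finitely many values -/
theorem dat_fin [Finite X] (d : X) (Q : Subgroup (T X)) (b : Bs d Q) :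
    (Set.range fun i => dat d Q b i).Finite := by
  classical
  -- the sections and the root
  have h1 : (insert (1 : T X) (offs d b.1)).Finite := b.2.2.2.insert _
  have h2 : (Set.pi Set.univ fun _ : X => insert (1 : T X) (offs d b.1)).Finite :=
    Set.Finite.pi fun _ => h1
  have h3 : ((Set.pi Set.univ fun _ : X => insert (1 : T X) (offs d b.1)) ×ˢ
    (Set.univ : Set (Equiv.Perm X))).Finite := h2.prod Set.finite_univ
  refine Set.Finite.of_finite_image (f := fun w : Wr X Q => ((fun x => ((w.s x : Q) : T X)), w.p))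
    (h3.subset ?_) ?_
  · rintro _ ⟨_, ⟨i, rfl⟩, rfl⟩
    refine ⟨fun x _ => ?_, Set.mem_univ _⟩
    show ((dat d Q b i).s x : T X) ∈ _
    by_cases hx : x = d
    · left
      rw [hx, dat_d]
      rfl
    · right
      rw [dat_s d Q b i x hx]
      exact ⟨i, x, hx, rfl⟩
  · intro u _ v _ huv
    apply Wr.ext
    · funext x
      exact Subtype.ext (congrFun (congrArg Prod.fst huv) x)
    · exact congrArg Prod.snd huv

theorem t_BC : S_BC := by
  intro C hC X _ d Q hQ
  classical
  refine Pool.Agent.Y430.SS.of_directed hC.base (Bs d Q) (Finset (Bs d Q)) (fun i j => ?_)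
    (fun s => Subgroup.closure (s : Set (Bs d Q)))
    (fun s t h => Subgroup.closure_mono (by exact_mod_cast h))
    (fun g => ⟨{g}, Subgroup.subset_closure (by simp)⟩) (fun s => ?_)
  · exact ⟨i ∪ j, Finset.subset_union_left, Finset.subset_union_right⟩
  · -- the finite set of the values of the data of the generators
    let F : ℕ → (s → Wr X Q) := fun i b => dat d Q b.1 i
    have hF : (Set.range F).Finite := by
      refine (Set.Finite.pi' (t := fun b : s => Set.range fun i => dat d Q b.1 i)
        fun b => dat_fin d Q b.1).subset ?_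
      rintro _ ⟨i, rfl⟩ b
      exact ⟨i, rfl⟩
    have hFf : Finite (Set.range F) := hF
    have hsec : ∀ v : Set.range F, ∃ i, F i = v.1 := fun v => v.2
    choose r hr using hsec
    have hcl : ∀ b ∈ Subgroup.closure (s : Set (Bs d Q)), ∀ i j, F i = F j →
        dat d Q b i = dat d Q b j := by
      intro b hb i j hij
      have h1 : Subgroup.closure (s : Set (Bs d Q)) ≤ (datH d Q i).eqLocus (datH d Q j) := by
        rw [Subgroup.closure_le]
        intro b hb
        exact congrFun hij ⟨b, hb⟩
      exact h1 hb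
    refine hC.base.of_injective _ (Set.range F → Wr X Q)
      { toFun := fun b v => datH d Q (r v) b.1
        map_one' := by
          funext v
          exact map_one (datH d Q (r v))
        map_mul' := by
          intro a b
          funext v
          exact map_mul (datH d Q (r v)) a.1 b.1 } ?_
      (Pool.Agent.Y812.SS.C_pow hC.base _ _ (Pool.Agent.Y812.SS.t_wr C hC.base X Q inferInstance hQ))
    intro a b hab
    apply Subtype.ext
    apply eq_of_dat d Q
    intro i
    have h1 : dat d Q a.1 (r ⟨F i, i, rfl⟩) = dat d Q b.1 (r ⟨F i, i, rfl⟩) :=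
      congrFun hab ⟨F i, i, rfl⟩
    have h2 : F (r ⟨F i, i, rfl⟩) = F i := hr ⟨F i, i, rfl⟩
    rw [← hcl a.1 a.2 _ i h2, ← hcl b.1 b.2 _ i h2, h1]

end Pool.Agent.T2h30.PF.BC
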