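import Pool.Agent.T2h30.PF.Stm2

/-!
# Project PF (helper30), task GERM: the germs of the elements of `P k`
-/

set_option autoImplicit false

namespace Pool.Agent.T2h30.PF.GERM

open Pool.Agent.Y110.FJ Pool.Agent.Y462.SS Pool.Agent.T2h30.PA
open Pool.Agent.T2h30.PA.GERM (sftn_gray secr_mul gray_mul secr_succ secr_add secr_one sftn_sftn
  sft_sftn dep_secr sec_cray_inv sec_cray_inv_ne secr_cray secr_cray_inv secr_sd)

variable {X : Type}

theorem Bs_mono (d : X) {Q Q' : Subgroup (T X)} (h : Q ≤ Q') : Bs d Q ≤ Bs d Q' := by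
  rintro b ⟨h1, h2, h3⟩
  exact ⟨h1, fun n x hx => h (h2 n x hx), h3⟩

theorem Pk_le (d : X) (k : ℕ) : Pk d k ≤ Pk d (k + 1) := le_sup_left

theorem Pk_mono (d : X) {k l : ℕ} (h : k ≤ l) : Pk d k ≤ Pk d l := by
  induction l, h using Nat.le_induction with
  | base => exact le_rfl
  | succ m _ ih => exact ih.trans (Pk_le d m)

theorem Bk_le (d : X) (k : ℕ) : Bk d k ≤ Bk d (k + 1) := by
  cases k with
  | zero => exact bot_le
  | succ k => exact Bs_mono d (Pk_le d k)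

theorem Bs_sec (d : X) {Q : Subgroup (T X)} {b : T X} (hb : b ∈ Bs d Q) : sec b d ∈ Bs d Q := by
  obtain ⟨h1, h2, h3⟩ := hb
  refine ⟨fun n => h1 (n + 1), fun n x hx => h2 (n + 1) x hx, h3.subset ?_⟩
  rintro _ ⟨n, x, hx, rfl⟩
  exact ⟨n + 1, x, hx, rfl⟩

theorem Bk_root (d : X) (k : ℕ) {b : T X} (hb : b ∈ Bk d k) : root b d = d := by
  cases k with
  | zero =>
    have h1 : b = 1 := Subgroup.mem_bot.mp hb
    rw [h1, root_one]
    rfl
  | succ k => exact hb.1 0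

theorem Bk_sec (d : X) (k : ℕ) {b : T X} (hb : b ∈ Bk d k) : sec b d ∈ Bk d k := by
  cases k with
  | zero =>
    have h1 : b = 1 := Subgroup.mem_bot.mp hb
    rw [h1, sec_one]
    exact one_mem _
  | succ k => exact Bs_sec d hb

/-! ## the property -/

/-- the germ of `g` at `ξ` has the standard form at the level `n` -/
def Eq (d : X) (k n : ℕ) (g : T X) (ξ : ℕ → X) : Prop :=
  ∃ b ∈ Bk d k, secr n ξ g = cray d (sftn n (gray g ξ)) * b * (cray d (sftn n ξ))⁻¹

theorem Eq_succ {d : X} {k n : ℕ} {g : T X} {ξ : ℕ → X} (h : Eq d k n g ξ) :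
    Eq d k (n + 1) g ξ := by
  classical
  obtain ⟨b, hb, h⟩ := h
  refine ⟨sec b d, Bk_sec d k hb, ?_⟩
  have h0 : ξ n = sftn n ξ 0 := by
    show ξ n = ξ (0 + n)
    rw [Nat.zero_add]
  rw [secr_succ, h, ← sft_sftn, ← sft_sftn, h0]
  generalize sftn n (gray g ξ) = η
  generalize sftn n ξ = ζ
  have h1 : root (cray d ζ)⁻¹ (ζ 0) = d := by
    rw [root_inv, root_cray, Equiv.Perm.inv_eq_iff_eq, Equiv.swap_apply_left]
  have h2 : sec (cray d ζ)⁻¹ (ζ 0) = (cray d (sft ζ))⁻¹ := by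
    have h3 : (root (cray d ζ))⁻¹ (ζ 0) = d := by
      rw [root_cray, Equiv.Perm.inv_eq_iff_eq, Equiv.swap_apply_left]
    rw [sec_inv, h3, sec_cray]
  rw [sec_mul, h1, sec_mul, Bk_root d k hb, sec_cray, h2]

theorem Eq_le {d : X} {k n m : ℕ} (hnm : n ≤ m) {g : T X} {ξ : ℕ → X} (h : Eq d k n g ξ) :
    Eq d k m g ξ := by
  induction m, hnm using Nat.le_induction with
  | base => exact h
  | succ m _ ih => exact Eq_succ ih

/-- all the germs of `g` have the standard form -/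
def Gd (d : X) (k : ℕ) (g : T X) : Prop := ∀ ξ : ℕ → X, ∃ n, Eq d k n g ξ

theorem Gd_mul {d : X} {k : ℕ} {g h : T X} (hg : Gd d k g) (hh : Gd d k h) : Gd d k (g * h) := by
  intro ξ
  obtain ⟨n, h2⟩ := hh ξ
  obtain ⟨m, h4⟩ := hg (gray h ξ)
  refine ⟨max n m, ?_⟩
  obtain ⟨b, hb, h5⟩ := Eq_le (le_max_left n m) h2
  obtain ⟨c, hc, h6⟩ := Eq_le (le_max_right n m) h4
  refine ⟨c * b, mul_mem hc hb, ?_⟩
  rw [secr_mul, h5, h6, gray_mul]
  group

/-- trivial germs -/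
theorem Gd_triv {d : X} {k n : ℕ} {g : T X} {ξ : ℕ → X} (h : secr n ξ g = 1) :
    ∃ n, Eq d k n g ξ := by
  have h1 : ∀ ζ : ℕ → X, gray (1 : T X) ζ = ζ := by
    intro ζ
    funext i
    show root (secr i ζ 1) (ζ i) = ζ i
    rw [secr_one, root_one]
    rfl
  have h2 : sftn n (gray g ξ) = sftn n ξ := by
    rw [sftn_gray, h, h1]
  refine ⟨n, 1, one_mem _, ?_⟩
  rw [h, h2, mul_one, mul_inv_cancel]

theorem Gd_one (d : X) (k : ℕ) : Gd d k 1 := fun _ => Gd_triv (n := 0) rfl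

/-- the group of the good elements -/
def GG (d : X) (k : ℕ) : Subgroup (T X) where
  carrier := {g | Gd d k g ∧ Gd d k g⁻¹}
  one_mem' := ⟨Gd_one d k, by rw [inv_one]; exact Gd_one d k⟩
  mul_mem' := by
    rintro a b ⟨h1, h2⟩ ⟨h3, h4⟩
    exact ⟨Gd_mul h1 h3, by rw [mul_inv_rev]; exact Gd_mul h4 h2⟩
  inv_mem' := by
    rintro a ⟨h1, h2⟩
    exact ⟨h2, by rw [inv_inv]; exact h1⟩

theorem Gd_succ {d : X} {k : ℕ} {g : T X} (h : Gd d k g) : Gd d (k + 1) g := by
  intro ξ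
  obtain ⟨n, b, hb, h2⟩ := h ξ
  exact ⟨n, b, Bk_le d k hb, h2⟩

theorem GG_le (d : X) (k : ℕ) : GG d k ≤ GG d (k + 1) := fun _ h => ⟨Gd_succ h.1, Gd_succ h.2⟩

/-! ## generators -/

theorem Gd_dep (d : X) (k n : ℕ) (g : T X) (h : IsDep n g) : Gd d k g :=
  fun ξ => Gd_triv (dep_secr n g ξ h)

theorem Gd_cray (d : X) (k : ℕ) (ζ : ℕ → X) : Gd d k (cray d ζ) := by
  classical
  intro ξ
  by_cases h : ∀ i, ξ i = d
  · have h1 : ξ = fun _ => d := funext h
    have h2 : gray (cray d ζ) ξ = ζ := by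
      funext n
      show root (secr n ξ (cray d ζ)) (ξ n) = ζ n
      rw [secr_cray d n ζ ξ (fun i _ => h i), root_cray, h n, Equiv.swap_apply_left]
      show ζ (0 + n) = ζ n
      rw [Nat.zero_add]
    refine ⟨0, 1, one_mem _, ?_⟩
    rw [h2]
    have h3 : sftn 0 ξ = fun _ => d := by
      funext i
      exact h (i + 0)
    rw [h3, cray_const]
    show cray d ζ = cray d ζ * 1 * 1⁻¹
    group
  · push Not at h
    have h1 := Nat.find_spec h
    set m := Nat.find h with hm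
    have h2 : ∀ i < m, ξ i = d := fun i hi => by
      have := Nat.find_min h hi
      push Not at this
      exact this
    apply Gd_triv (n := m + 1)
    rw [secr_succ, secr_cray d m ζ ξ h2, sec_cray_ne d _ _ h1]

theorem Gd_cray_inv (d : X) (k : ℕ) (ζ : ℕ → X) : Gd d k (cray d ζ)⁻¹ := by
  classical
  intro ξ
  by_cases h : ∀ i, ξ i = ζ i
  · have h1 : ξ = ζ := funext h
    have h2 : gray (cray d ζ)⁻¹ ξ = fun _ => d := by
      funext n
      show root (secr n ξ (cray d ζ)⁻¹) (ξ n) = d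
      rw [secr_cray_inv d n ζ ξ (fun i _ => h i), root_inv, root_cray,
        Equiv.Perm.inv_eq_iff_eq, Equiv.swap_apply_left, h n]
      show ζ n = ζ (0 + n)
      rw [Nat.zero_add]
    refine ⟨0, 1, one_mem _, ?_⟩
    rw [h2]
    have h3 : sftn 0 (fun _ : ℕ => d) = fun _ => d := rfl
    rw [h3, cray_const, h1]
    show (cray d ζ)⁻¹ = 1 * 1 * (cray d ζ)⁻¹
    group
  · push Not at h
    have h1 := Nat.find_spec h
    set m := Nat.find h with hm
    have h2 : ∀ i < m, ξ i = ζ i := fun i hi => by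
      have := Nat.find_min h hi
      push Not at this
      exact this
    apply Gd_triv (n := m + 1)
    have h0 : ζ m = sftn m ζ 0 := by
      show ζ m = ζ (0 + m)
      rw [Nat.zero_add]
    rw [secr_succ, secr_cray_inv d m ζ ξ h2, sec_cray_inv_ne d _ _ (by rw [← h0]; exact h1)]

theorem Gd_Bs (d : X) (k : ℕ) (ih : ∀ g ∈ Pk d k, Gd d k g) (b : T X) (hb : b ∈ Bs d (Pk d k)) :
    Gd d (k + 1) b := by
  classical
  intro ξ
  by_cases h : ∀ i, ξ i = d
  · have h1 : ξ = fun _ => d := funext h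
    have h2 : gray b ξ = ξ := by
      funext n
      show root (secr n ξ b) (ξ n) = ξ n
      rw [secr_sd d n ξ b (fun i _ => h i), h n]
      exact hb.1 n
    refine ⟨0, b, hb, ?_⟩
    rw [h2]
    have h3 : sftn 0 ξ = fun _ => d := by
      funext i
      exact h (i + 0)
    rw [h3, cray_const]
    show b = 1 * b * 1⁻¹
    group
  · push Not at h
    have h1 := Nat.find_spec h
    set m := Nat.find h with hm
    have h2 : ∀ i < m, ξ i = d := fun i hi => by
      have := Nat.find_min h hi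
      push Not at this
      exact this
    have h3 : secr (m + 1) ξ b ∈ Pk d k := by
      rw [secr_succ, secr_sd d m ξ b h2]
      exact hb.2.1 m _ h1
    obtain ⟨n, c, hc, h5⟩ := ih _ h3 (sftn (m + 1) ξ)
    rw [← sftn_gray] at h5
    refine ⟨m + 1 + n, c, Bk_le d k hc, ?_⟩
    rw [secr_add, h5, sftn_sftn, sftn_sftn]

theorem Pk_le_GG (d : X) (k : ℕ) : Pk d k ≤ GG d k := by
  induction k with
  | zero =>
    show Pz d ≤ GG d 0
    rw [Pz, Subgroup.closure_le]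
    rintro g (⟨n, hn⟩ | ⟨ξ, rfl⟩)
    · exact ⟨Gd_dep d 0 n g hn, Gd_dep d 0 n _ (isDep_inv hn)⟩
    · exact ⟨Gd_cray d 0 ξ, Gd_cray_inv d 0 ξ⟩
  | succ k ih =>
    show Pk d k ⊔ Bs d (Pk d k) ≤ _
    apply sup_le (ih.trans (GG_le d k))
    intro b hb
    have h1 : ∀ g ∈ Pk d k, Gd d k g := fun g hg => (ih hg).1
    exact ⟨Gd_Bs d k h1 b hb, Gd_Bs d k h1 _ (inv_mem hb)⟩

theorem t_GERM : S_GERM := by
  intro X d k g hg ξ
  exact (Pk_le_GG d k hg).1 ξ

end Pool.Agent.T2h30.PF.GERM
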