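import Pool.Agent.T2h30.PF.Stm
import Pool.Agent.Y812.SS.Wr

/-! Project PA, task LIM (helper30): approximation of the center. -/

set_option autoImplicit false

namespace Pool.Agent.T2h30.PF.LIM

open Pool.Agent.Y110.FJ Pool.Agent.Y462.SS Pool.Agent.T2h30.PA
open Pool.Agent.Y331.SS (wmap wmap_s wmap_p phi Kn Kn_zero Kn_succ mem_Kn_succ Kn_mono dies_iff)

variable {X : Type} {d : X} {P B : ℕ → Subgroup (T X)} {ι : Type} {c E : ι → ℕ}

theorem P_mono (ht : Tw0 d P B) : Monotone P := monotone_nat_of_le_succ ht.P_le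
theorem B_mono (ht : Tw0 d P B) : Monotone B := monotone_nat_of_le_succ ht.B_le

theorem Kf_le_Lf (ht : Tw0 d P B) (hcE : ∀ i, c i ≤ E i) (j : ι × Bool) :
    Kf P B c j ≤ Lf P B E j := by
  obtain ⟨i, b⟩ := j
  cases b with
  | false => exact P_mono ht (hcE i)
  | true => exact B_mono ht (Nat.succ_le_succ (hcE i))

theorem Kf_le_P (ht : Tw0 d P B) {e : ℕ} (hce : ∀ i, c i < e) (j : ι × Bool) :
    Kf P B c j ≤ P e := by
  obtain ⟨i, b⟩ := j
  cases b with
  | false => exact P_mono ht (hce i).le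
  | true => exact (ht.B_le_P _).trans (P_mono ht (hce i))

theorem kap_coe (ht : Tw0 d P B) (hcE : ∀ i, c i ≤ E i) (j : ι × Bool) (k : Kf P B c j) :
    ((kap P B c E j k : Lf P B E j) : T X) = k := incl_apply (Kf_le_Lf ht hcE j) k

/-! ### the recursion on the leaves -/

section leaves

variable {S : Type} [Group S] (l : ∀ j : ι × Bool, Lf P B E j →* S)

/-- the recursion on `P (E i)` -/
def lrF (ht : Tw0 d P B) (i : ι) : Lf P B E (i, false) →* Wr X S where
  toFun g := ⟨fun x => l (i, false) ⟨sec g.1 x, ht.P_sec _ g.1 g.2 x⟩, root g.1⟩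
  map_one' := by
    apply Wr.ext
    · funext x
      exact (congrArg (l (i, false)) (Subtype.ext (sec_one x))).trans (map_one _)
    · exact root_one
  map_mul' a b := by
    apply Wr.ext
    · funext x
      exact (congrArg (l (i, false)) (Subtype.ext (sec_mul a.1 b.1 x) :
        (⟨sec (a * b).1 x, ht.P_sec _ (a * b).1 (a * b).2 x⟩ : Lf P B E (i, false)) =
          ⟨sec a.1 (root b.1 x), ht.P_sec _ a.1 a.2 _⟩ * ⟨sec b.1 x, ht.P_sec _ b.1 b.2 x⟩)).trans
        (map_mul _ _ _)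
    · exact root_mul a.1 b.1

open Classical in
/-- the sections of the elements of `B (E i + 1)` -/
noncomputable def lts (ht : Tw0 d P B) (i : ι) (g : Lf P B E (i, true)) (x : X) : S :=
  if h : x = d then l (i, true) ⟨sec g.1 d, ht.B_sec _ g.1 g.2⟩
    else l (i, false) ⟨sec g.1 x, ht.B_off _ g.1 g.2 x h⟩

theorem lts_pos (ht : Tw0 d P B) (i : ι) (g : Lf P B E (i, true)) (x : X) (h : x = d)
    (g' : Lf P B E (i, true)) (hg : (g' : T X) = sec g.1 d) : lts l ht i g x = l (i, true) g' := by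
  unfold lts
  rw [dif_pos h]
  congr 1
  exact Subtype.ext hg.symm

theorem lts_neg (ht : Tw0 d P B) (i : ι) (g : Lf P B E (i, true)) (x : X) (h : x ≠ d)
    (g' : Lf P B E (i, false)) (hg : (g' : T X) = sec g.1 x) :
    lts l ht i g x = l (i, false) g' := by
  unfold lts
  rw [dif_neg h]
  congr 1
  exact Subtype.ext hg.symm

/-- the recursion on `B (E i + 1)` -/
noncomputable def lrT (ht : Tw0 d P B) (i : ι) : Lf P B E (i, true) →* Wr X S where
  toFun g := ⟨lts l ht i g, root g.1⟩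
  map_one' := by
    apply Wr.ext
    · funext x
      change lts l ht i 1 x = 1
      by_cases h : x = d
      · rw [lts_pos l ht i 1 x h 1 (sec_one d).symm, map_one]
      · rw [lts_neg l ht i 1 x h 1 (sec_one x).symm, map_one]
    · exact root_one
  map_mul' a b := by
    apply Wr.ext
    · funext x
      change lts l ht i (a * b) x = lts l ht i a (root b.1 x) * lts l ht i b x
      have hb : root b.1 d = d := ht.B_root _ b.1 b.2
      by_cases h : x = d
      · rw [lts_pos l ht i b x h ⟨sec b.1 d, ht.B_sec _ b.1 b.2⟩ rfl,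
          lts_pos l ht i a (root b.1 x) (by rw [h, hb]) ⟨sec a.1 d, ht.B_sec _ a.1 a.2⟩ rfl,
          ← map_mul, lts_pos l ht i (a * b) x h _ ?_]
        have := sec_mul a.1 b.1 d
        rw [hb] at this
        exact this.symm
      · have h2 : root b.1 x ≠ d := fun h' => h ((root b.1).injective (h'.trans hb.symm))
        rw [lts_neg l ht i b x h ⟨sec b.1 x, ht.B_off _ b.1 b.2 x h⟩ rfl,
          lts_neg l ht i a (root b.1 x) h2 ⟨sec a.1 (root b.1 x), ht.B_off _ a.1 a.2 _ h2⟩ rfl,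
          ← map_mul, lts_neg l ht i (a * b) x h _ ?_]
        exact (sec_mul a.1 b.1 x).symm
    · exact root_mul a.1 b.1

/-- the recursion on the leaves -/
noncomputable def lr (ht : Tw0 d P B) : ∀ j : ι × Bool, Lf P B E j →* Wr X S
  | (i, false) => lrF l ht i
  | (i, true) => lrT l ht i

theorem lr_p (ht : Tw0 d P B) (j : ι × Bool) (g : Lf P B E j) : (lr l ht j g).p = root g.1 := by
  obtain ⟨i, b⟩ := j
  cases b <;> rfl

theorem lr_F (ht : Tw0 d P B) (i : ι) (g : Lf P B E (i, false)) (x : X)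
    (g' : Lf P B E (i, false)) (h : (g' : T X) = sec g.1 x) :
    (lr l ht (i, false) g).s x = l (i, false) g' := by
  change l (i, false) _ = _
  congr 1
  exact Subtype.ext h.symm

theorem lr_T (ht : Tw0 d P B) (i : ι) (g : Lf P B E (i, true))
    (g' : Lf P B E (i, true)) (h : (g' : T X) = sec g.1 d) :
    (lr l ht (i, true) g).s d = l (i, true) g' := lts_pos l ht i g d rfl g' h

theorem lr_O (ht : Tw0 d P B) (i : ι) (g : Lf P B E (i, true)) (x : X) (hx : x ≠ d)
    (g' : Lf P B E (i, false)) (h : (g' : T X) = sec g.1 x) :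
    (lr l ht (i, true) g).s x = l (i, false) g' := lts_neg l ht i g x hx g' h

theorem lr_inj (ht : Tw0 d P B) (hl : ∀ j, Function.Injective (l j)) (j : ι × Bool) :
    Function.Injective (lr l ht j) := by
  obtain ⟨i, b⟩ := j
  intro g g' hgg
  apply Subtype.ext
  have hp := congrArg Wr.p hgg
  rw [lr_p, lr_p] at hp
  refine T_ext hp fun x => ?_
  have hs := congrFun (congrArg Wr.s hgg) x
  cases b with
  | false =>
    rw [lr_F l ht i g x ⟨sec g.1 x, ht.P_sec _ g.1 g.2 x⟩ rfl,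
      lr_F l ht i g' x ⟨sec g'.1 x, ht.P_sec _ g'.1 g'.2 x⟩ rfl] at hs
    exact congrArg Subtype.val (hl _ hs)
  | true =>
    by_cases hx : x = d
    · subst hx
      rw [lr_T l ht i g ⟨sec g.1 x, ht.B_sec _ g.1 g.2⟩ rfl,
        lr_T l ht i g' ⟨sec g'.1 x, ht.B_sec _ g'.1 g'.2⟩ rfl] at hs
      exact congrArg Subtype.val (hl _ hs)
    · rw [lr_O l ht i g x hx ⟨sec g.1 x, ht.B_off _ g.1 g.2 x hx⟩ rfl,
        lr_O l ht i g' x hx ⟨sec g'.1 x, ht.B_off _ g'.1 g'.2 x hx⟩ rfl] at hs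
      exact congrArg Subtype.val (hl _ hs)

end leaves

section main

variable {Γ : Type} [Group Γ] {ψ : Γ →* Wr X Γ} {π : Γ →* T X}

theorem pi_dies {Q : Subgroup (T X)} (hcov : Cov Γ ψ π Q) {γ : Γ} (h : Dies ψ γ) : π γ = 1 := by
  induction h with
  | one => exact map_one π
  | step γ hp _ ih =>
    apply T_ext
    · rw [hcov.root_eq, hp, root_one]
    · intro x
      rw [hcov.sec_eq, ih x, sec_one]

/-- the approximations of the center -/
abbrev G (ψ : Γ →* Wr X Γ) (n : ℕ) : Type := Γ ⧸ Kn ψ n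

/-- the projection -/
def q (ψ : Γ →* Wr X Γ) (n : ℕ) : Γ →* G ψ n := QuotientGroup.mk' (Kn ψ n)

theorem q_surj (ψ : Γ →* Wr X Γ) (n : ℕ) (a : G ψ n) : ∃ γ, q ψ n γ = a :=
  QuotientGroup.mk_surjective a

/-- the recursion -/
def rc (ψ : Γ →* Wr X Γ) (n : ℕ) : G ψ (n + 1) →* Wr X (G ψ n) :=
  QuotientGroup.kerLift (phi ψ (Kn ψ n))

theorem rc_inj (ψ : Γ →* Wr X Γ) (n : ℕ) : Function.Injective (rc ψ n) :=
  QuotientGroup.kerLift_injective _

theorem rc_s (ψ : Γ →* Wr X Γ) (n : ℕ) (γ : Γ) (x : X) :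
    (rc ψ n (q ψ (n + 1) γ)).s x = q ψ n ((ψ γ).s x) := rfl

theorem rc_p (ψ : Γ →* Wr X Γ) (n : ℕ) (γ : Γ) :
    (rc ψ n (q ψ (n + 1) γ)).p = (ψ γ).p := rfl

/-- the projections between the approximations -/
def tr (ψ : Γ →* Wr X Γ) {i j : ℕ} (h : i ≤ j) : G ψ i →* G ψ j :=
  QuotientGroup.map (Kn ψ i) (Kn ψ j) (MonoidHom.id Γ) (Kn_mono ψ h)

theorem tr_q (ψ : Γ →* Wr X Γ) {i j : ℕ} (h : i ≤ j) (γ : Γ) : tr ψ h (q ψ i γ) = q ψ j γ := rfl

variable {Q : Subgroup (T X)} [Finite X]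

/-- the projection to the group of tree automorphisms -/
def pn (hcov : Cov Γ ψ π Q) (n : ℕ) : G ψ n →* Q :=
  QuotientGroup.lift (Kn ψ n) (π.codRestrict Q fun γ => hcov.range_eq ▸ ⟨γ, rfl⟩) fun γ h =>
    Subtype.ext (pi_dies hcov ((dies_iff ψ γ).2 ⟨n, h⟩))

theorem pn_q (hcov : Cov Γ ψ π Q) (n : ℕ) (γ : Γ) : (pn hcov n (q ψ n γ) : T X) = π γ := rfl

/-- the homomorphisms from the edge groups to the approximations -/
def ph (ψ : Γ →* Wr X Γ) (φ : ∀ j : ι × Bool, Kf P B c j →* Γ) (n : ℕ) (j : ι × Bool) :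
    Kf P B c j →* G ψ n := (q ψ n).comp (φ j)

/-- the approximations -/
abbrev St (ψ : Γ →* Wr X Γ) (φ : ∀ j : ι × Bool, Kf P B c j →* Γ) (E : ι → ℕ) (n : ℕ) : Type :=
  Star (ph ψ φ n) (kap P B c E)

/-- any star over a center with a homomorphism to `T X` maps to `T X` -/
theorem leaf_inj (ht : Tw0 d P B) (hcE : ∀ i, c i ≤ E i) {A : Type} [Group A]
    (χ : ∀ j : ι × Bool, Kf P B c j →* A) (p : A →* T X) (hp : ∀ j k, p (χ j k) = k)
    (j : ι × Bool) : Function.Injective (starL χ (kap P B c E) j) := by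
  have h1 : ∀ j k, p (χ j k) = (Lf P B E j).subtype (kap P B c E j k) := fun j k => by
    rw [hp]
    exact (kap_coe ht hcE j k).symm
  intro a b hab
  have h2 := congrArg (starLift χ (kap P B c E) p (fun j => (Lf P B E j).subtype) h1) hab
  rw [starLift_L, starLift_L] at h2
  exact Subtype.ext h2

variable {φ : ∀ j : ι × Bool, Kf P B c j →* Γ}

/-- the center of the recursion -/
noncomputable def rhoC (ψ : Γ →* Wr X Γ) (φ : ∀ j : ι × Bool, Kf P B c j →* Γ) (E : ι → ℕ) (n : ℕ) :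
    G ψ (n + 1) →* Wr X (St ψ φ E n) :=
  (wmap (starC (ph ψ φ n) (kap P B c E))).comp (rc ψ n)

theorem rho_compat (ht : Tw0 d P B) (hcE : ∀ i, c i ≤ E i) (hcov : Cov Γ ψ π Q)
    (hatt : AttRec P B d c Γ ψ π φ) (n : ℕ) (j : ι × Bool) (k : Kf P B c j) :
    rhoC ψ φ E n (ph ψ φ (n + 1) j k) =
      lr (starL (ph ψ φ n) (kap P B c E)) ht j (kap P B c E j k) := by
  have hk := kap_coe ht hcE j k
  apply Wr.ext
  · funext x
    change starC (ph ψ φ n) (kap P B c E) (q ψ n ((ψ (φ j k)).s x)) = _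
    obtain ⟨i, b⟩ := j
    cases b with
    | false =>
      have h1 := hatt.secF i k ⟨sec k.1 x, ht.P_sec _ k.1 k.2 x⟩ x rfl
      rw [h1, lr_F _ ht i _ x (kap P B c E (i, false) ⟨sec k.1 x, ht.P_sec _ k.1 k.2 x⟩) (by
        rw [kap_coe ht hcE, hk])]
      exact star_glue (ph ψ φ n) (kap P B c E) (i, false) _
    | true =>
      by_cases hx : x = d
      · subst hx
        have h1 := hatt.secT i k ⟨sec k.1 x, ht.B_sec _ k.1 k.2⟩ rfl
        rw [h1, lr_T _ ht i _ (kap P B c E (i, true) ⟨sec k.1 x, ht.B_sec _ k.1 k.2⟩) (by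
          rw [kap_coe ht hcE, hk])]
        exact star_glue (ph ψ φ n) (kap P B c E) (i, true) _
      · have h1 := hatt.secO i k ⟨sec k.1 x, ht.B_off _ k.1 k.2 x hx⟩ x hx rfl
        rw [h1, lr_O _ ht i _ x hx (kap P B c E (i, false)
          ⟨sec k.1 x, ht.B_off _ k.1 k.2 x hx⟩) (by rw [kap_coe ht hcE, hk])]
        exact star_glue (ph ψ φ n) (kap P B c E) (i, false) _
  · rw [lr_p, hk]
    change (ψ (φ j k)).p = _
    rw [← hcov.root_eq, hatt.pi]

theorem approx (hTT : S_TT) (C : ∀ (G : Type) [Group G], Prop) (hC : ClosedE C)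
    (ht : Tw0 d P B) (hcE : ∀ i, c i ≤ E i) (hcov : Cov Γ ψ π Q)
    (hatt : AttRec P B d c Γ ψ π φ)
    (hinj : Function.Injective (starC φ (kap P B c E))) (h0 : C (Star φ (kap P B c E))) (n : ℕ) :
    Function.Injective (starC (ph ψ φ n) (kap P B c E)) ∧ C (St ψ φ E n) := by
  induction n with
  | zero =>
    obtain ⟨r, hr⟩ : ∃ r : G ψ 0 →* Γ, ∀ γ, r (q ψ 0 γ) = γ := by
      refine ⟨QuotientGroup.lift (Kn ψ 0) (MonoidHom.id Γ) ?_, fun γ => rfl⟩
      intro x hx
      rw [Kn_zero, Subgroup.mem_bot] at hx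
      exact hx
    have hri : Function.Injective r := by
      intro a b hab
      obtain ⟨a, rfl⟩ := q_surj ψ 0 a
      obtain ⟨b, rfl⟩ := q_surj ψ 0 b
      rw [hr, hr] at hab
      rw [hab]
    have hcomp : ∀ (j : ι × Bool) (k : Kf P B c j),
        (starC φ (kap P B c E)).comp r (ph ψ φ 0 j k) =
          starL φ (kap P B c E) j (kap P B c E j k) := by
      intro j k
      rw [MonoidHom.comp_apply]
      change starC φ (kap P B c E) (r (q ψ 0 (φ j k))) = _
      rw [hr]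
      exact star_glue φ (kap P B c E) j k
    have hfi : Function.Injective ((starC φ (kap P B c E)).comp r) := hinj.comp hri
    refine ⟨?_, ?_⟩
    · intro a b hab
      have h1 := congrArg (starLift (ph ψ φ 0) (kap P B c E) ((starC φ (kap P B c E)).comp r)
        (starL φ (kap P B c E)) hcomp) hab
      rw [starLift_C, starLift_C] at h1
      exact hfi h1
    · exact hTT C hC (G ψ 0) (ι × Bool) (fun j => Lf P B E j) (fun j => Kf P B c j)
        (ph ψ φ 0) (kap P B c E) (Star φ (kap P B c E)) ((starC φ (kap P B c E)).comp r)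
        (starL φ (kap P B c E)) hcomp hfi (leaf_inj ht hcE φ π hatt.pi) h0
  | succ n ih =>
    obtain ⟨ih1, ih2⟩ := ih
    have hw : Function.Injective (wmap (X := X) (starC (ph ψ φ n) (kap P B c E))) := by
      intro a b hab
      apply Wr.ext
      · funext x
        exact ih1 (congrFun (congrArg Wr.s hab) x)
      · have h2 := congrArg Wr.p hab
        exact h2
    have hfi : Function.Injective (rhoC ψ φ E n) := hw.comp (rc_inj ψ n)
    have hcomp := rho_compat (E := E) ht hcE hcov hatt n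
    have hpn : ∀ (j : ι × Bool) (k : Kf P B c j), (Q.subtype.comp (pn hcov n)) (ph ψ φ n j k) = k := by
      intro j k
      exact hatt.pi j k
    refine ⟨?_, ?_⟩
    · intro a b hab
      have h1 := congrArg (starLift (ph ψ φ (n + 1)) (kap P B c E) (rhoC ψ φ E n)
        (lr (starL (ph ψ φ n) (kap P B c E)) ht) hcomp) hab
      rw [starLift_C, starLift_C] at h1
      exact hfi h1
    · exact hTT C hC (G ψ (n + 1)) (ι × Bool) (fun j => Lf P B E j) (fun j => Kf P B c j)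
        (ph ψ φ (n + 1)) (kap P B c E) (Wr X (St ψ φ E n)) (rhoC ψ φ E n)
        (lr (starL (ph ψ φ n) (kap P B c E)) ht) hcomp hfi
        (lr_inj _ ht (leaf_inj ht hcE (ph ψ φ n) _ hpn))
        (Pool.Agent.Y812.SS.t_wr C hC.base X (St ψ φ E n) inferInstance ih2)

end main

/-! ### the colimit -/

section colim

variable {Γ : Type} [Group Γ] {ψ : Γ →* Wr X Γ} {π : Γ →* T X} [Finite X]
  {φ : ∀ j : ι × Bool, Kf P B c j →* Γ}

/-- the homomorphisms between the approximations -/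
noncomputable def fS (ψ : Γ →* Wr X Γ) (φ : ∀ j : ι × Bool, Kf P B c j →* Γ) (E : ι → ℕ)
    (i j : ℕ) (h : i ≤ j) : St ψ φ E i →* St ψ φ E j :=
  starLift (ph ψ φ i) (kap P B c E) ((starC (ph ψ φ j) (kap P B c E)).comp (tr ψ h))
    (starL (ph ψ φ j) (kap P B c E)) fun l k => star_glue (ph ψ φ j) (kap P B c E) l k

theorem fS_C (i j : ℕ) (h : i ≤ j) (a : G ψ i) :
    fS ψ φ E i j h (starC (ph ψ φ i) (kap P B c E) a) =
      starC (ph ψ φ j) (kap P B c E) (tr ψ h a) := starLift_C _ _ _ _ _ a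

theorem fS_L (i j : ℕ) (h : i ≤ j) (l : ι × Bool) (g : Lf P B E l) :
    fS ψ φ E i j h (starL (ph ψ φ i) (kap P B c E) l g) =
      starL (ph ψ φ j) (kap P B c E) l g := by
  rw [fS]
  exact starLift_L (ph ψ φ i) (kap P B c E) _ (starL (ph ψ φ j) (kap P B c E)) _ l g

theorem g_compat (ht : Tw0 d P B) {e : ℕ} (hce : ∀ i, c i < e) (hcov : Cov Γ ψ π (P e))
    (hatt : AttRec P B d c Γ ψ π φ) (n : ℕ) (j : ι × Bool) (k : Kf P B c j) :
    ((starC (fun j : ι × Bool => incl (Kf P B c j) (P e)) (kap P B c E)).comp (pn hcov n))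
      (ph ψ φ n j k) =
    starL (fun j : ι × Bool => incl (Kf P B c j) (P e)) (kap P B c E) j (kap P B c E j k) := by
  have h1 : pn hcov n (ph ψ φ n j k) = incl (Kf P B c j) (P e) k := by
    apply Subtype.ext
    rw [incl_apply (Kf_le_P ht hce j)]
    exact hatt.pi j k
  rw [MonoidHom.comp_apply, h1]
  exact star_glue (fun j : ι × Bool => incl (Kf P B c j) (P e)) (kap P B c E) j k

/-- the homomorphisms to the limit -/
noncomputable def gS (ht : Tw0 d P B) {e : ℕ} (hce : ∀ i, c i < e) (hcov : Cov Γ ψ π (P e))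
    (hatt : AttRec P B d c Γ ψ π φ) (n : ℕ) : St ψ φ E n →* SP P B e c E :=
  starLift (ph ψ φ n) (kap P B c E)
    ((starC (fun j : ι × Bool => incl (Kf P B c j) (P e)) (kap P B c E)).comp (pn hcov n))
    (starL (fun j : ι × Bool => incl (Kf P B c j) (P e)) (kap P B c E))
    (g_compat ht hce hcov hatt n)

theorem gS_C (ht : Tw0 d P B) {e : ℕ} (hce : ∀ i, c i < e) (hcov : Cov Γ ψ π (P e))
    (hatt : AttRec P B d c Γ ψ π φ) (n : ℕ) (a : G ψ n) :
    gS (E := E) ht hce hcov hatt n (starC (ph ψ φ n) (kap P B c E) a) =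
      starC (fun j : ι × Bool => incl (Kf P B c j) (P e)) (kap P B c E) (pn hcov n a) :=
  starLift_C _ _ _ _ _ a

theorem gS_L (ht : Tw0 d P B) {e : ℕ} (hce : ∀ i, c i < e) (hcov : Cov Γ ψ π (P e))
    (hatt : AttRec P B d c Γ ψ π φ) (n : ℕ) (l : ι × Bool) (g : Lf P B E l) :
    gS (E := E) ht hce hcov hatt n (starL (ph ψ φ n) (kap P B c E) l g) =
      starL (fun j : ι × Bool => incl (Kf P B c j) (P e)) (kap P B c E) l g := by
  rw [gS]
  exact starLift_L (ph ψ φ n) (kap P B c E) _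
    (starL (fun j : ι × Bool => incl (Kf P B c j) (P e)) (kap P B c E)) _ l g

theorem fS_comp (i j k : ℕ) (h : i ≤ j) (h' : j ≤ k) (x : St ψ φ E i) :
    fS ψ φ E j k h' (fS ψ φ E i j h x) = fS ψ φ E i k (h.trans h') x := by
  have : (fS ψ φ E j k h').comp (fS ψ φ E i j h) = fS ψ φ E i k (h.trans h') := by
    apply star_ext
    · intro a
      obtain ⟨a, rfl⟩ := q_surj ψ i a
      rw [MonoidHom.comp_apply, fS_C, fS_C, fS_C, tr_q, tr_q, tr_q]
    · intro l g
      rw [MonoidHom.comp_apply, fS_L, fS_L, fS_L]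
  exact DFunLike.congr_fun this x

theorem fS_id (i : ℕ) (h : i ≤ i) (x : St ψ φ E i) : fS ψ φ E i i h x = x := by
  have : fS ψ φ E i i h = MonoidHom.id _ := by
    apply star_ext
    · intro a
      obtain ⟨a, rfl⟩ := q_surj ψ i a
      rw [fS_C, tr_q]
      rfl
    · intro l g
      rw [fS_L]
      rfl
  exact DFunLike.congr_fun this x

theorem gS_comp (ht : Tw0 d P B) {e : ℕ} (hce : ∀ i, c i < e) (hcov : Cov Γ ψ π (P e))
    (hatt : AttRec P B d c Γ ψ π φ) (i j : ℕ) (h : i ≤ j) (x : St ψ φ E i) :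
    gS ht hce hcov hatt j (fS ψ φ E i j h x) = gS ht hce hcov hatt i x := by
  have : (gS ht hce hcov hatt j).comp (fS ψ φ E i j h) = gS ht hce hcov hatt i := by
    apply star_ext
    · intro a
      obtain ⟨a, rfl⟩ := q_surj ψ i a
      rw [MonoidHom.comp_apply, fS_C, gS_C, gS_C, tr_q]
      congr 1
    · intro l g
      rw [MonoidHom.comp_apply, fS_L, gS_L, gS_L]
  exact DFunLike.congr_fun this x

/-- the elements which become trivial -/
def MM (ψ : Γ →* Wr X Γ) (φ : ∀ j : ι × Bool, Kf P B c j →* Γ) (E : ι → ℕ) (i : ℕ) :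
    Subgroup (St ψ φ E i) where
  carrier := {x | ∃ (j : ℕ) (h : i ≤ j), fS ψ φ E i j h x = 1}
  one_mem' := ⟨i, le_rfl, map_one _⟩
  mul_mem' := by
    rintro a b ⟨j, hj, ha⟩ ⟨k, hk, hb⟩
    refine ⟨max j k, hj.trans (le_max_left j k), ?_⟩
    have h1 := fS_comp (ψ := ψ) (φ := φ) (E := E) i j (max j k) hj (le_max_left j k) a
    have h2 := fS_comp (ψ := ψ) (φ := φ) (E := E) i k (max j k) hk (le_max_right j k) b
    rw [ha, map_one] at h1
    rw [hb, map_one] at h2
    rw [map_mul, ← h1, ← h2, mul_one]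
  inv_mem' := by
    rintro a ⟨j, hj, ha⟩
    exact ⟨j, hj, by rw [map_inv, ha, inv_one]⟩

instance (ψ : Γ →* Wr X Γ) (φ : ∀ j : ι × Bool, Kf P B c j →* Γ) (E : ι → ℕ) (i : ℕ) :
    (MM ψ φ E i).Normal := by
  constructor
  rintro a ⟨j, hj, ha⟩ g
  exact ⟨j, hj, by rw [map_mul, map_mul, ha, mul_one, ← map_mul, mul_inv_cancel, map_one]⟩

theorem ker_gS (ht : Tw0 d P B) {e : ℕ} (hce : ∀ i, c i < e) (hcov : Cov Γ ψ π (P e))
    (hatt : AttRec P B d c Γ ψ π φ) (i : ℕ) (x : St ψ φ E i)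
    (hx : gS ht hce hcov hatt i x = 1) : ∃ (j : ℕ) (h : i ≤ j), fS ψ φ E i j h x = 1 := by
  obtain ⟨p, hp⟩ : ∃ p : Γ →* P e, p = π.codRestrict (P e) fun γ => hcov.range_eq ▸ ⟨γ, rfl⟩ :=
    ⟨_, rfl⟩
  have hpc : ∀ γ, (p γ : T X) = π γ := fun γ => by rw [hp]; rfl
  have hps : Function.Surjective p := by
    intro a
    have h1 : (a : T X) ∈ π.range := by rw [hcov.range_eq]; exact a.2
    obtain ⟨γ, hγ⟩ := h1
    exact ⟨γ, Subtype.ext ((hpc γ).trans hγ)⟩
  obtain ⟨χ, hχ⟩ : ∃ χ : Γ →* St ψ φ E i ⧸ MM ψ φ E i,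
      ∀ γ, χ γ = QuotientGroup.mk' (MM ψ φ E i) (starC (ph ψ φ i) (kap P B c E) (q ψ i γ)) :=
    ⟨(QuotientGroup.mk' (MM ψ φ E i)).comp ((starC (ph ψ φ i) (kap P B c E)).comp (q ψ i)),
      fun γ => rfl⟩
  have hker : p.ker ≤ χ.ker := by
    intro γ hγ
    rw [MonoidHom.mem_ker] at hγ ⊢
    have h1 : π γ = 1 := by rw [← hpc, hγ]; rfl
    obtain ⟨n, hn⟩ := (dies_iff ψ γ).1 (hcov.dies γ h1)
    rw [hχ]
    refine (QuotientGroup.eq_one_iff _).2 ⟨max i n, le_max_left i n, ?_⟩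
    rw [fS_C, tr_q]
    have h2 : q ψ (max i n) γ = 1 :=
      (QuotientGroup.eq_one_iff _).2 (Kn_mono ψ (le_max_right i n) hn)
    rw [h2, map_one]
  obtain ⟨σ, hσ⟩ : ∃ σ : P e →* St ψ φ E i ⧸ MM ψ φ E i, ∀ γ, σ (p γ) = χ γ := by
    refine ⟨(QuotientGroup.lift p.ker χ hker).comp
      (QuotientGroup.quotientKerEquivOfSurjective p hps).symm.toMonoidHom, fun γ => ?_⟩
    have h1 : (QuotientGroup.quotientKerEquivOfSurjective p hps).symm (p γ) =
        QuotientGroup.mk γ := by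
      rw [MulEquiv.symm_apply_eq]
      rfl
    rw [MonoidHom.comp_apply]
    change QuotientGroup.lift p.ker χ hker
      ((QuotientGroup.quotientKerEquivOfSurjective p hps).symm (p γ)) = _
    rw [h1]
    rfl
  have hcomp : ∀ (j : ι × Bool) (k : Kf P B c j), σ (incl (Kf P B c j) (P e) k) =
      ((QuotientGroup.mk' (MM ψ φ E i)).comp (starL (ph ψ φ i) (kap P B c E) j))
        (kap P B c E j k) := by
    intro j k
    have h1 : incl (Kf P B c j) (P e) k = p (φ j k) := by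
      apply Subtype.ext
      rw [incl_apply (Kf_le_P ht hce j), hpc, hatt.pi]
    rw [h1, hσ, hχ, MonoidHom.comp_apply, ← star_glue]
    rfl
  have hid : (starLift (fun j : ι × Bool => incl (Kf P B c j) (P e)) (kap P B c E) σ
      (fun j => (QuotientGroup.mk' (MM ψ φ E i)).comp (starL (ph ψ φ i) (kap P B c E) j))
      hcomp).comp (gS ht hce hcov hatt i) = QuotientGroup.mk' (MM ψ φ E i) := by
    apply star_ext
    · intro a
      obtain ⟨γ, rfl⟩ := q_surj ψ i a
      rw [MonoidHom.comp_apply, gS_C, starLift_C]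
      have h1 : pn hcov i (q ψ i γ) = p γ := Subtype.ext (by rw [pn_q, hpc])
      rw [h1, hσ, hχ]
    · intro l g
      rw [MonoidHom.comp_apply, gS_L, starLift_L]
      rfl
  have h2 := DFunLike.congr_fun hid x
  rw [MonoidHom.comp_apply, hx, map_one] at h2
  exact (QuotientGroup.eq_one_iff x).1 h2.symm

end colim

theorem t_LIM : S_LIM := by
  intro hTT C hC X hX d P B ht ι c E e hcE hce Γ _ ψ π hcov φ hatt hinj h0
  have hap := approx hTT C hC ht hcE hcov hatt hinj h0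
  refine hC.base.colim ℕ (fun i j => ⟨max i j, le_max_left i j, le_max_right i j⟩)
    (St ψ φ E) (fS ψ φ E) (SP P B e c E) (gS ht hce hcov hatt) ?_ ?_ ?_ ?_ ?_ ?_
  · intro i h x
    exact fS_id i h x
  · intro i j k h h' x
    exact fS_comp i j k h h' x
  · intro i j h x
    exact gS_comp ht hce hcov hatt i j h x
  · intro y
    refine ⟨0, ?_⟩
    refine star_ind _ _ (P := fun y => ∃ x, gS ht hce hcov hatt 0 x = y) ?_ ?_ ?_ y
    · exact ⟨1, map_one _⟩
    · rintro a y ⟨x, rfl⟩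
      have h1 : (a : T X) ∈ π.range := by rw [hcov.range_eq]; exact a.2
      obtain ⟨γ, hγ⟩ := h1
      refine ⟨starC (ph ψ φ 0) (kap P B c E) (q ψ 0 γ) * x, ?_⟩
      rw [map_mul, gS_C]
      congr 2
      exact Subtype.ext hγ
    · rintro l g y ⟨x, rfl⟩
      exact ⟨starL (ph ψ φ 0) (kap P B c E) l g * x, by rw [map_mul, gS_L]⟩
  · intro i x hx
    exact ker_gS ht hce hcov hatt i x hx
  · intro i
    exact (hap i).2

end Pool.Agent.T2h30.PF.LIM
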