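import Pool.Agent.T2h30.PF.Stm

/-! Project PA, task MAIN (helper30): the double induction. -/

set_option autoImplicit false

namespace Pool.Agent.T2h30.PF.MAIN

open Pool.Agent.Y110.FJ Pool.Agent.Y462.SS Pool.Agent.T2h30.PA

/-- raising the index of the center -/
def RR (C : ∀ (G : Type) [Group G], Prop) {X : Type} (P B : ℕ → Subgroup (T X)) (F : ℕ) : Prop :=
  ∀ (ι : Type) (c E : ι → ℕ) (i₀ : ι), (∀ i, c i ≤ E i) → (∀ i, c i ≤ c i₀) → E i₀ = F →
    C (SP P B (c i₀ + 1) c E) → ∀ e, c i₀ + 1 ≤ e → e ≤ F → C (SP P B e c E)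

theorem step (C : ∀ (G : Type) [Group G], Prop) (hC : ClosedE C) {X : Type} (hX : Finite X) (d : X)
    (P A B : ℕ → Subgroup (T X)) (ht : Tw d P A B)
    (hA : S_A) (hB : S_B) (hSUB : S_SUB) (hSTAB : S_STAB) (hSTEP : S_STEP) (hUNI : S_UNI)
    (hREC : S_REC) (hTT : S_TT) (hJJ : S_JJ) (hLIM : S_LIM)
    (ι : Type) (c E : ι → ℕ) (hcE : ∀ i, c i ≤ E i) (c₀ e : ℕ) (hc : ∀ i, c i < c₀) (he : c₀ ≤ e)
    (hR : RR C P B e) (h0 : C (SPy P B e (B c₀) c E)) : C (SP P B (e + 1) c E) := by
  have key : ∀ t, c₀ + t ≤ e → C (SPy P B e (B (c₀ + t)) c E) := by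
    intro t
    induction t with
    | zero => intro _; exact h0
    | succ t ih =>
      intro hle
      have h1 := hSTAB hTT hSTEP hUNI C hC X hX d P A B ht ι c E e (c₀ + t) hcE
        (fun i => lt_of_lt_of_le (hc i) he) (by omega) (ih (by omega))
      have h2 := hB hREC hTT hJJ hLIM C hC X hX d P A B ht ι c E (c₀ + t) e hcE
        (fun i => lt_of_lt_of_le (hc i) (Nat.le_add_right _ _)) (by omega) h1
      have h3 := hR (Option ι) (addl c (c₀ + t)) (addl E e) none (by
          intro i
          cases i with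
          | none => show c₀ + t ≤ e; omega
          | some i => exact hcE i) (by
          intro i
          cases i with
          | none => exact le_refl _
          | some i => show c i ≤ c₀ + t; have := hc i; omega) rfl h2 e
          (by show c₀ + t + 1 ≤ e; omega) le_rfl
      exact hSUB hTT C hC X d P B ht.tw ι c E e (c₀ + t) hcE
        (fun i => lt_of_lt_of_le (hc i) he) (by omega) h3
  have h1 := key (e - c₀) (by omega)
  rw [Nat.add_sub_cancel' he] at h1
  have h3 := hSTAB hTT hSTEP hUNI C hC X hX d P A B ht ι c E e e hcE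
    (fun i => lt_of_lt_of_le (hc i) he) le_rfl h1
  exact hA hREC hTT hJJ hLIM C hC X hX d P A B ht ι c E e hcE (fun i => lt_of_lt_of_le (hc i) he) h3

theorem t_MAIN : S_MAIN := by
  intro hA hB hFOLD hSUB hINIT hSTAB hSTEP hUNI hREC hTT hJJ hLIM C hC X hX d P A B ht hP0 hPB
  have hR : ∀ F, RR C P B F := by
    intro F
    induction F using Nat.strong_induction_on with
    | _ F IH =>
      intro ι c E i₀ hcE hci hEi h0 e he heF
      obtain ⟨t, rfl⟩ := Nat.exists_eq_add_of_le he
      induction t with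
      | zero => exact h0
      | succ t ih =>
        have h1 := ih (by omega) (by omega)
        have h2 := hFOLD hTT C hC X d P B ht.tw ι c E (c i₀ + 1 + t) i₀ hcE
          (fun i => by have := hci i; omega) (by omega) h1
        exact step C hC hX d P A B ht hA hB hSUB hSTAB hSTEP hUNI hREC hTT hJJ hLIM ι c E hcE (c i₀ + 1)
          (c i₀ + 1 + t) (fun i => by have := hci i; omega) (by omega) (IH _ (by omega)) h2
  intro k
  induction k with
  | zero => exact hP0
  | succ k ih =>
    have h1 := (hINIT hTT C hC X d P B ht.tw Empty (fun i => i.elim) (fun i => i.elim) k).1 ih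
      (hPB k ih)
    have h2 := step C hC hX d P A B ht hA hB hSUB hSTAB hSTEP hUNI hREC hTT hJJ hLIM Empty (fun i => i.elim)
      (fun i => i.elim) (fun i => i.elim) 0 k (fun i => i.elim) (Nat.zero_le _) (hR k) h1
    exact (hINIT hTT C hC X d P B ht.tw Empty (fun i => i.elim) (fun i => i.elim) (k + 1)).2.2 h2

end Pool.Agent.T2h30.PF.MAIN
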