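import Pool.Agent.T2h30.PF.Stm2
import Pool.Agent.T2h30.PA.T_PZ

/-!
# Project PF (helper30), task PZ
-/

set_option autoImplicit false

namespace Pool.Agent.T2h30.PF.PZ

open Pool.Agent.Y110.FJ Pool.Agent.Y462.SS Pool.Agent.T2h30.PA
open Pool.Agent.T2h30.PA.PZ (dep_at cray_bdd)

theorem t_PZ : S_PZ := by
  intro C hC X hX d
  let S : Set (Pz d) := (fun g : Pz d => (g : T X)) ⁻¹'
    ({g | ∃ k, IsDep k g} ∪ {g | ∃ ξ, g = cray d ξ})
  have hS : Subgroup.closure S = ⊤ := Subgroup.closure_closure_coe_preimage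
  refine Pool.Agent.Results.MP_490288_al.BoundedAutomata.result C hC.base X hX (Pz d)
    ((T X).subtype.comp (Pz d).subtype) ?_ S hS ?_ ?_
  · exact (Subgroup.subtype_injective _).comp (Subgroup.subtype_injective _)
  · intro s _
    exact (s : T X).2
  · intro s hs
    left
    rcases hs with ⟨k, hk⟩ | ⟨ξ, hξ⟩
    · exact ⟨∅, k, fun v _ => dep_at k v _ hk⟩
    · have h1 : ((T X).subtype.comp (Pz d).subtype) s = (cray d ξ).1 := by
        rw [← hξ]
        rfl
      rw [h1]
      exact cray_bdd d ξ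

end Pool.Agent.T2h30.PF.PZ
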