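import Pool.Agent.T2h30.PF.T_LV
import Pool.Agent.T2h30.PA.T_POLY
import Pool.Agent.T2h30.PA.T_EXPO

/-!
# Project PF (helper30), task RK: automorphisms of finite rank are in some `P k`
-/

set_option autoImplicit false

namespace Pool.Agent.T2h30.PF.RK

open Pool.Agent.Y110.FJ Pool.Agent.Y462.SS Pool.Agent.T2h30.PA Pool.Agent.T2h30.PF.GERM
open Pool.Agent.T2h30.PA.LV (cns)
open Pool.Agent.T2h30.PA.POLY (bb root_bb sec_bb_ne sd_bb pre secr_eq secw_append pre_length
  St self_mem_St St_sub St_lt exists_ray rep rep_secw rep_eq_pre letter_eq)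

variable {X : Type}

theorem sft_cns (x : X) (ρ : ℕ → X) : sft (cns x ρ) = ρ := rfl

theorem cns_sft (ρ : ℕ → X) : cns (ρ 0) (sft ρ) = ρ := by
  funext n
  cases n with
  | zero => rfl
  | succ n => rfl

/-- the rays below the letter `x` -/
def below (R : Set (ℕ → X)) (x : X) : Set (ℕ → X) := {ρ | cns x ρ ∈ R}

theorem below_finite {R : Set (ℕ → X)} (hR : R.Finite) (x : X) : (below R x).Finite := by
  refine hR.preimage (f := cns x) fun ρ _ ρ' _ h => ?_
  rw [← sft_cns x ρ, ← sft_cns x ρ', h]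

theorem leaf_empty (u : List X) : Leaf (∅ : Set (ℕ → X)) u ↔ u = [] := by
  constructor
  · rintro ⟨_, h⟩
    rcases List.eq_nil_or_concat u with h1 | ⟨v, x, h1⟩
    · exact h1
    · obtain ⟨ρ, hρ, _⟩ := h v x (by rw [h1, List.concat_eq_append])
      exact absurd hρ (Set.notMem_empty ρ)
  · rintro rfl
    exact ⟨fun ρ hρ => absurd hρ (Set.notMem_empty ρ), fun v x h => by simp at h⟩

theorem leaf_nil {R : Set (ℕ → X)} (hR : R.Nonempty) : ¬ Leaf R [] := by
  rintro ⟨h, _⟩
  obtain ⟨ρ, hρ⟩ := hR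
  exact h ρ hρ trivial

theorem leaf_cons {R : Set (ℕ → X)} (hR : R.Nonempty) (x : X) (u : List X) :
    Leaf R (x :: u) ↔ Leaf (below R x) u := by
  constructor
  · rintro ⟨h1, h2⟩
    refine ⟨fun ρ hρ h3 => h1 _ hρ ⟨rfl, h3⟩, fun v y hv => ?_⟩
    obtain ⟨ρ, hρ, h3, h4⟩ := h2 (x :: v) y (by rw [hv, List.cons_append])
    refine ⟨sft ρ, ?_, h4⟩
    show cns x (sft ρ) ∈ R
    rw [← h3, cns_sft]
    exact hρ
  · rintro ⟨h1, h2⟩
    refine ⟨fun ρ hρ h3 => ?_, fun v y hv => ?_⟩
    · obtain ⟨h3, h4⟩ := h3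
      refine h1 (sft ρ) ?_ h4
      show cns x (sft ρ) ∈ R
      rw [← h3, cns_sft]
      exact hρ
    · cases v with
      | nil =>
        obtain ⟨ρ, hρ⟩ := hR
        exact ⟨ρ, hρ, trivial⟩
      | cons z v =>
        rw [List.cons_append] at hv
        obtain ⟨h3, h4⟩ := List.cons.inj hv
        obtain ⟨ρ, hρ, h5⟩ := h2 v y h4
        exact ⟨cns x ρ, hρ, h3, h5⟩

theorem onR_append (v : List X) : ∀ (ρ : ℕ → X) (y : X),
    OnR ρ (v ++ [y]) ↔ OnR ρ v ∧ ρ v.length = y := by
  induction v with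
  | nil =>
    intro ρ y
    show (ρ 0 = y ∧ True) ↔ (True ∧ ρ 0 = y)
    tauto
  | cons x v ih =>
    intro ρ y
    show (ρ 0 = x ∧ OnR (sft ρ) (v ++ [y])) ↔ ((ρ 0 = x ∧ OnR (sft ρ) v) ∧ ρ (v.length + 1) = y)
    rw [ih]
    show (ρ 0 = x ∧ OnR (sft ρ) v ∧ ρ (v.length + 1) = y) ↔ _
    tauto

theorem onR_pre (v : List X) : ∀ ρ : ℕ → X, OnR ρ v ↔ v = pre v.length ρ := by
  induction v with
  | nil =>
    intro ρ
    exact ⟨fun _ => rfl, fun _ => trivial⟩
  | cons x v ih =>
    intro ρ
    show (ρ 0 = x ∧ OnR (sft ρ) v) ↔ x :: v = ρ 0 :: pre v.length (sft ρ)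
    rw [ih]
    constructor
    · rintro ⟨h1, h2⟩
      rw [← h1, ← h2]
    · intro h
      obtain ⟨h1, h2⟩ := List.cons.inj h
      exact ⟨h1.symm, h2⟩

theorem leaf_single (ξ : ℕ → X) (i : ℕ) (y : X) (hy : y ≠ ξ i) :
    Leaf {ξ} (pre i ξ ++ [y]) := by
  refine ⟨?_, fun v x hv => ?_⟩
  · rintro ρ hρ h
    rw [Set.mem_singleton_iff] at hρ
    subst hρ
    rw [onR_append, pre_length] at h
    exact hy h.2.symm
  · obtain ⟨h1, _⟩ := List.append_inj' hv rfl
    refine ⟨ξ, rfl, ?_⟩
    rw [onR_pre, ← h1, pre_length]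

theorem leaf_single' (ξ : ℕ → X) (u : List X) (hu : Leaf {ξ} u) :
    ∃ i y, y ≠ ξ i ∧ u = pre i ξ ++ [y] := by
  rcases List.eq_nil_or_concat u with h1 | ⟨v, y, h1⟩
  · rw [h1] at hu
    exact absurd hu (leaf_nil (Set.singleton_nonempty ξ))
  · rw [List.concat_eq_append] at h1
    obtain ⟨h2, h3⟩ := hu
    obtain ⟨ρ, hρ, h4⟩ := h3 v y h1
    rw [Set.mem_singleton_iff] at hρ
    subst hρ
    refine ⟨v.length, y, fun h5 => h2 ρ rfl ?_, ?_⟩
    · rw [h1, onR_append]
      exact ⟨h4, h5.symm⟩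
    · rw [h1, ← (onR_pre v ρ).1 h4]

/-! ### finite rank -/

theorem rk_of_leaf_empty {k : ℕ} {g : T X} (h : Rk k g) : Rk (k + 1) g := by
  refine ⟨∅, Set.finite_empty, fun u hu => ?_, (Set.finite_singleton g).subset ?_⟩
  · rw [leaf_empty] at hu
    subst hu
    exact h
  · rintro _ ⟨u, hu, rfl⟩
    rw [leaf_empty] at hu
    subst hu
    rfl

theorem rk_mono {k l : ℕ} (hkl : k ≤ l) {g : T X} (h : Rk k g) : Rk l g := by
  induction l, hkl using Nat.le_induction with
  | base => exact h
  | succ m _ ih => exact rk_of_leaf_empty ih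

theorem dep_mono {m n : ℕ} (hmn : m ≤ n) {g : T X} (h : IsDep m g) : IsDep n g := by
  induction n, hmn using Nat.le_induction generalizing g with
  | base => exact h
  | succ n hmn ih =>
    have h1 : IsDep n g := ih h
    clear ih h hmn
    induction n generalizing g with
    | zero =>
      have h2 : g = 1 := h1
      rw [h2]
      exact isDep_one _
    | succ n ih => exact fun x => ih (h1 x)

theorem rk_cons [Finite X] (k : ℕ) : ∀ g : T X, (∀ x, Rk k (sec g x)) → Rk k g := by
  induction k with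
  | zero =>
    intro g h
    choose n hn using h
    obtain ⟨N, hN⟩ := (Set.finite_range n).bddAbove
    exact ⟨N + 1, fun x => dep_mono (hN ⟨x, rfl⟩) (hn x)⟩
  | succ k ih =>
    intro g h
    choose R hR hR1 hR2 using h
    by_cases hall : ∀ x, R x = ∅
    · apply rk_of_leaf_empty
      apply ih
      intro x
      exact hR1 x [] (by rw [hall x, leaf_empty])
    · push Not at hall
      obtain ⟨x₀, hx₀⟩ := hall
      obtain ⟨ρ₀, hρ₀⟩ := hx₀
      obtain ⟨R', hR'⟩ : ∃ R' : Set (ℕ → X), R' = ⋃ x, cns x '' R x := ⟨_, rfl⟩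
      have hne : R'.Nonempty := by
        rw [hR']
        exact ⟨cns x₀ ρ₀, Set.mem_iUnion.2 ⟨x₀, ρ₀, hρ₀, rfl⟩⟩
      have hbel : ∀ x, below R' x = R x := by
        intro x
        ext ρ
        constructor
        · intro h1
          have h2 : cns x ρ ∈ R' := h1
          rw [hR'] at h2
          obtain ⟨y, ρ', h3, h4⟩ := Set.mem_iUnion.1 h2
          have h5 : y = x := congrFun h4 0
          have h6 : ρ' = ρ := by rw [← sft_cns y ρ', h4, sft_cns]
          rw [← h5, ← h6]
          exact h3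
        · intro h1
          show cns x ρ ∈ R'
          rw [hR']
          exact Set.mem_iUnion.2 ⟨x, ρ, h1, rfl⟩
      refine ⟨R', ?_, fun u hu => ?_, ?_⟩
      · rw [hR']
        exact Set.finite_iUnion fun x => (hR x).image _
      · cases u with
        | nil => exact absurd hu (leaf_nil hne)
        | cons x u =>
          rw [leaf_cons hne, hbel] at hu
          exact hR1 x u hu
      · refine (Set.finite_iUnion fun x => hR2 x).subset ?_
        rintro _ ⟨u, hu, rfl⟩
        cases u with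
        | nil => exact absurd hu (leaf_nil hne)
        | cons x u =>
          rw [leaf_cons hne, hbel] at hu
          exact Set.mem_iUnion.2 ⟨x, u, hu, rfl⟩

/-! ### finite rank implies membership in the tower -/

/-- the rays are separated by their first `N` letters -/
def Sep (N : ℕ) (R : Set (ℕ → X)) : Prop :=
  ∀ ρ ∈ R, ∀ ρ' ∈ R, (∀ i < N, ρ i = ρ' i) → ρ = ρ'

theorem exists_sep {R : Set (ℕ → X)} (hR : R.Finite) : ∃ N, Sep N R := by
  have h1 : ∀ p : (ℕ → X) × (ℕ → X), ∃ i, p.1 ≠ p.2 → p.1 i ≠ p.2 i := by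
    intro p
    by_cases h : p.1 = p.2
    · exact ⟨0, fun h' => absurd h h'⟩
    · obtain ⟨i, hi⟩ := Function.ne_iff.1 h
      exact ⟨i, fun _ => hi⟩
  choose n hn using h1
  obtain ⟨N, hN⟩ := ((hR.prod hR).image n).bddAbove
  refine ⟨N + 1, fun ρ hρ ρ' hρ' h => ?_⟩
  by_contra hne
  have h2 := hn (ρ, ρ') hne
  exact h2 (h _ (Nat.lt_succ_of_le (hN ⟨(ρ, ρ'), ⟨hρ, hρ'⟩, rfl⟩)))

theorem cray_mem (d : X) (k : ℕ) (ζ : ℕ → X) : cray d ζ ∈ Pk d k := by
  have h2 : cray d ζ ∈ Pk d 0 := Subgroup.subset_closure (Or.inr ⟨ζ, rfl⟩)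
  exact Pk_mono d (Nat.zero_le _) h2

theorem sep_step [Finite X] (d : X) (k N : ℕ) : ∀ (R : Set (ℕ → X)) (g : T X), R.Finite →
    Sep N R → (∀ u, Leaf R u → secw u g ∈ Pk d k) →
    {h | ∃ u, Leaf R u ∧ h = secw u g}.Finite → g ∈ Pk d (k + 1) := by
  classical
  induction N with
  | zero =>
    intro R g hR hsep h1 h2
    rcases R.eq_empty_or_nonempty with hE | ⟨ξ, hξ⟩
    · exact Pk_le d k (h1 [] (by rw [hE, leaf_empty]))
    · have hR1 : R = {ξ} := by
        ext ρ
        rw [Set.mem_singleton_iff]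
        constructor
        · intro hρ
          exact hsep ρ hρ ξ hξ fun i hi => absurd hi (Nat.not_lt_zero i)
        · rintro rfl
          exact hξ
      subst hR1
      have hsw : ∀ (n : ℕ) (y : X), y ≠ d → Equiv.swap d (ξ n) y ≠ ξ n := by
        intro n y hy h
        apply hy
        have h3 := congrArg (Equiv.swap d (ξ n)) h
        rw [Equiv.swap_apply_self, Equiv.swap_apply_right] at h3
        exact h3
      have hsec : ∀ (n : ℕ) (y : X), y ≠ d → sec (sd d n (bb d g ξ)) y =
          secw (pre n ξ ++ [Equiv.swap d (ξ n) y]) g := by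
        intro n y hy
        rw [sd_bb, sec_bb_ne _ _ _ _ hy]
        have h3 : sftn n ξ 0 = ξ n := by
          change ξ (0 + n) = ξ n
          rw [Nat.zero_add]
        rw [h3, secw_append, ← secr_eq]
        rfl
      have hb : bb d g ξ ∈ Bs d (Pk d k) := by
        refine ⟨fun n => ?_, fun n y hy => ?_, h2.subset ?_⟩
        · rw [sd_bb, root_bb]
        · rw [hsec n y hy]
          exact h1 _ (leaf_single ξ n _ (hsw n y hy))
        · rintro _ ⟨n, y, hy, rfl⟩
          exact ⟨_, leaf_single ξ n _ (hsw n y hy), hsec n y hy⟩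
      have hb' : bb d g ξ ∈ Pk d (k + 1) :=
        (le_sup_right : Bs d (Pk d k) ≤ Pk d k ⊔ Bs d (Pk d k)) hb
      have h3 : g = cray d (gray g ξ) * bb d g ξ * (cray d ξ)⁻¹ := by
        rw [bb]
        group
      rw [h3]
      exact mul_mem (mul_mem (cray_mem d _ _) hb') (inv_mem (cray_mem d _ _))
  | succ N ih =>
    intro R g hR hsep h1 h2
    rcases R.eq_empty_or_nonempty with hE | hne
    · exact Pk_le d k (h1 [] (by rw [hE, leaf_empty]))
    · apply LV.main d (k + 1)
      intro x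
      refine ih (below R x) (sec g x) (below_finite hR x) ?_ ?_ ?_
      · intro ρ hρ ρ' hρ' h
        have h3 : cns x ρ = cns x ρ' := by
          refine hsep _ hρ _ hρ' fun i hi => ?_
          cases i with
          | zero => rfl
          | succ i => exact h i (by omega)
        rw [← sft_cns x ρ, ← sft_cns x ρ', h3]
      · intro u hu
        exact h1 (x :: u) ((leaf_cons hne x u).2 hu)
      · refine h2.subset ?_
        rintro _ ⟨u, hu, rfl⟩
        exact ⟨x :: u, (leaf_cons hne x u).2 hu, rfl⟩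

theorem t_RK : S_RK := by
  intro X hX d k
  induction k with
  | zero =>
    rintro g ⟨n, hn⟩
    exact LV.dep_mem d 0 n g hn
  | succ k ih =>
    rintro g ⟨R, hR, h1, h2⟩
    obtain ⟨N, hN⟩ := exists_sep hR
    exact sep_step d k N R g hR hN (fun u hu => ih _ (h1 u hu)) h2

/-! ### finite-state automorphisms of polynomial activity have finite rank -/

theorem poly_rk [Finite X] (g : T X) (hfin : FinState g) (hpoly : PolyAct g) :
    ∃ k, Rk k g := by
  classical
  have main : ∀ N : ℕ, ∀ u : List X, (St (secw u g)).ncard ≤ N → ∃ k, Rk k (secw u g) := by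
    intro N
    induction N with
    | zero =>
      intro u hu
      exfalso
      have h1 : (St (secw u g)).Finite := hfin.subset (St_sub g u)
      have h2 : 0 < (St (secw u g)).ncard := (Set.ncard_pos h1).2 ⟨_, self_mem_St _⟩
      omega
    | succ N ih =>
      intro u hu
      have hfq : (St (secw u g)).Finite := hfin.subset (St_sub g u)
      obtain ⟨q, hq⟩ : ∃ q, q = secw u g := ⟨_, rfl⟩
      rw [← hq] at hu hfq ⊢
      have hsmall : ∀ w : List X, q ∉ St (secw w q) → ∃ k, Rk k (secw w q) := by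
        intro w hw
        have h1 := St_lt q hfq w hw
        have h2 := ih (u ++ w) (by rw [secw_append, ← hq]; omega)
        rwa [secw_append, ← hq] at h2
      by_cases h1 : q = 1
      · exact ⟨0, 0, by rw [h1]; rfl⟩
      by_cases hret : ∀ x, q ∉ St (sec q x)
      · choose k hk using fun x => hsmall [x] (hret x)
        obtain ⟨K, hK⟩ := (Set.finite_range k).bddAbove
        exact ⟨K, rk_cons K q fun x => rk_mono (hK ⟨x, rfl⟩) (hk x)⟩
      · push Not at hret
        obtain ⟨x, w, hxw⟩ := hret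
        obtain ⟨v, hv⟩ : ∃ v, v = x :: w := ⟨_, rfl⟩
        have hvq : secw v q = q := by rw [hv]; exact hxw.symm
        have hv0 : v ≠ [] := by rw [hv]; simp
        have hl : 0 < v.length := List.length_pos_iff.2 hv0
        obtain ⟨ξ, hper, hpre⟩ := exists_ray v hv0
        obtain ⟨l, hlv⟩ : ∃ l, l = v.length := ⟨_, rfl⟩
        rw [← hlv] at hper hpre hl
        have hexpo := Pool.Agent.T2h30.PA.EXPO.t_EXPO X inferInstance g hpoly u
          (by rw [← hq]; exact h1)
        rw [← hq] at hexpo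
        have hoff : ∀ (i : ℕ) (y : X), y ≠ ξ i → q ∉ St (secw (pre i ξ ++ [y]) q) := by
          rintro i y hy ⟨w, hw⟩
          rw [← secw_append, List.append_assoc, List.singleton_append] at hw
          apply hy
          have h2 : secw (pre (l * (i + 1)) ξ) q = q := by
            rw [← rep_eq_pre ξ l hper, hpre]
            exact rep_secw v q hvq _
          refine letter_eq i ξ y w (l * (i + 1)) ?_ (hexpo _ _ hw.symm h2)
          nlinarith
        have hleaf : ∀ u, Leaf {ξ} u → ∃ k, Rk k (secw u q) := by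
          intro u hu
          obtain ⟨i, y, hy, rfl⟩ := leaf_single' ξ u hu
          exact hsmall _ (hoff i y hy)
        have hsub : {h | ∃ u, Leaf {ξ} u ∧ h = secw u q} ⊆ St q := by
          rintro _ ⟨u, _, rfl⟩
          exact ⟨u, rfl⟩
        have hf := hfq.subset hsub
        have hk : ∀ h : T X, ∃ k, (∃ u, Leaf {ξ} u ∧ h = secw u q) → Rk k h := by
          intro h
          by_cases hh : ∃ u, Leaf {ξ} u ∧ h = secw u q
          · obtain ⟨u, hu, rfl⟩ := hh
            obtain ⟨k, hk⟩ := hleaf u hu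
            exact ⟨k, fun _ => hk⟩
          · exact ⟨0, fun h' => absurd h' hh⟩
        choose k hk using hk
        obtain ⟨K, hK⟩ := (hf.image k).bddAbove
        refine ⟨K + 1, {ξ}, Set.finite_singleton ξ, fun u hu => ?_, hf⟩
        exact rk_mono (hK ⟨_, ⟨u, hu, rfl⟩, rfl⟩) (hk _ ⟨u, hu, rfl⟩)
  obtain ⟨k, hk⟩ := main _ [] le_rfl
  exact ⟨k, hk⟩

end Pool.Agent.T2h30.PF.RK
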