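import Pool.Agent.T2h30.PF.T_UNI
import Pool.Agent.T2h30.PA.Stm2

/-! Project PF (helper30), task STAB: from the edge group `B m` to the edge group `A m`. -/

set_option autoImplicit false

namespace Pool.Agent.T2h30.PF.STAB

open Pool.Agent.Y110.FJ Pool.Agent.Y462.SS Pool.Agent.T2h30.PA Pool.Agent.T2h30.PF.LIM

variable {X : Type} {d : X} {P A B : ℕ → Subgroup (T X)}

/-- the elements of `A m` whose section of level `n` is in `B m` -/
def Kn (ht : Tw d P A B) (m n : ℕ) : Subgroup (T X) where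
  carrier := {g | g ∈ A m ∧ sd d n g ∈ B m}
  one_mem' := ⟨one_mem _, by rw [sd_one]; exact one_mem _⟩
  mul_mem' := by
    rintro a b ⟨ha, ha'⟩ ⟨hb, hb'⟩
    refine ⟨mul_mem ha hb, ?_⟩
    rw [sd_mul d n a b ((ht.A_iff m b).1 hb).2]
    exact mul_mem ha' hb'
  inv_mem' := by
    rintro a ⟨ha, ha'⟩
    refine ⟨inv_mem ha, ?_⟩
    rw [sd_inv d n a ((ht.A_iff m a).1 ha).2]
    exact inv_mem ha'

theorem Kn_zero (ht : Tw d P A B) (m : ℕ) : Kn ht m 0 = B m := by
  ext g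
  constructor
  · rintro ⟨_, h⟩
    exact h
  · intro h
    exact ⟨ht.B_le_A m h, h⟩

theorem t_STAB : S_STAB := by
  intro hTT hST hUN C hC X hX d P A B hTw ι c E e m hcE hce hme h0
  have ht := hTw.tw
  have hAP : A m ≤ P e := fun g hg => P_mono ht hme ((hTw.A_iff m g).1 hg).1
  have hAB : A m ≤ B (e + 1) := (hTw.A_le_B m).trans (B_mono ht (Nat.succ_le_succ hme))
  have hKA : ∀ n, Kn hTw m n ≤ A m := fun n g hg => hg.1
  have hall : ∀ n, C (SPy P B e (Kn hTw m n) c E) := by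
    intro n
    induction n with
    | zero =>
      rw [Kn_zero]
      exact h0
    | succ n ih =>
      refine hST hTT C hC X hX d P B ht ι c E e hcE hce (Kn hTw m n) (Kn hTw m (n + 1))
        ((hKA _).trans hAP) ((hKA _).trans hAB) ((hKA _).trans hAP) ((hKA _).trans hAB) ?_ ih
      intro k hk
      obtain ⟨h1, h2⟩ := hk
      refine ⟨(hTw.A_iff m _).2 ⟨ht.P_sec m k ((hTw.A_iff m k).1 h1).1 d, fun n => ?_⟩, h2⟩
      exact ((hTw.A_iff m k).1 h1).2 (n + 1)
  refine hUN C hC X d P B ht ι c E e hcE hce (Kn hTw m) (A m) hAP hAB ?_ hKA ?_ hall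
  · rintro n g ⟨h1, h2⟩
    refine ⟨h1, ?_⟩
    rw [sd_succ']
    exact ht.B_sec m _ h2
  · intro k hk
    obtain ⟨n, hn⟩ := hTw.fix m k hk
    exact ⟨n, hk, hn⟩

end Pool.Agent.T2h30.PF.STAB
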