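import Pool.Agent.T2h30.PF.T_FOLD

/-! Task SUB of project PA (helper25). -/

set_option autoImplicit false

namespace Pool.Agent.T2h30.PF.SUB

open Pool.Agent.Y110.FJ Pool.Agent.Y462.SS Pool.Agent.T2h30.PA Pool.Agent.T2h30.PF.FOLD

theorem t_SUB : S_SUB := by
  intro hTT C hC X d P B hT ι c E e m hcE hce hme hSP
  have hce' : ∀ i, addl c m i < e := by
    intro i
    cases i with
    | none => exact hme
    | some i => exact hce i
  have hcE' : ∀ i, addl c m i ≤ addl E e i := by
    intro i
    cases i with
    | none => exact hme.le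
    | some i => exact hcE i
  have hK1 : ∀ j, Kf P B (addl c m) j ≤ P e := Kf_le_P hT (addl c m) e hce'
  have hK2 : ∀ j, Kf P B (addl c m) j ≤ Lf P B (addl E e) j := Kf_le_Lf hT (addl c m) (addl E e) hcE'
  obtain ⟨hinjC, hinjL⟩ := star_sub (P e) (Lf P B (addl E e)) (Kf P B (addl c m)) hK1 hK2
  let sC := starC (fun j : Option ι × Bool => incl (Kf P B (addl c m) j) (P e))
    (kap P B (addl c m) (addl E e))
  let sL := starL (fun j : Option ι × Bool => incl (Kf P B (addl c m) j) (P e))
    (kap P B (addl c m) (addl E e))
  let g : ∀ j : Option (ι × Bool), Lx P B e E j →* SP P B e (addl c m) (addl E e) := fun j =>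
    match j with
    | none => sL (none, true)
    | some j => sL (some j.1, j.2)
  refine hTT C hC (P e) (Option (ι × Bool)) (fun j => Lx P B e E j)
    (fun j => Ky P B (B (m + 1)) c j)
    (fun j => incl (Ky P B (B (m + 1)) c j) (P e))
    (fun j => incl (Ky P B (B (m + 1)) c j) (Lx P B e E j)) (SP P B e (addl c m) (addl E e)) sC g ?_
    hinjC ?_ hSP
  · intro j k
    cases j with
    | none =>
      exact star_glue (fun j : Option ι × Bool => incl (Kf P B (addl c m) j) (P e))
        (kap P B (addl c m) (addl E e)) (none, true) k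
    | some j =>
      exact star_glue (fun j : Option ι × Bool => incl (Kf P B (addl c m) j) (P e))
        (kap P B (addl c m) (addl E e)) (some j.1, j.2) k
  · intro j
    cases j with
    | none => exact hinjL (none, true)
    | some j => exact hinjL (some j.1, j.2)

end Pool.Agent.T2h30.PF.SUB
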