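import Pool.Agent.T2h30.PF.T_GERM
import Pool.Agent.T2h30.PA.T_TOW

/-!
# Project PF (helper30), task TOW: the groups `Pk`, `Ak`, `Bk` form a tower
-/

set_option autoImplicit false

namespace Pool.Agent.T2h30.PF.TOW

open Pool.Agent.Y110.FJ Pool.Agent.Y462.SS Pool.Agent.T2h30.PA Pool.Agent.T2h30.PF.GERM
open Pool.Agent.T2h30.PA.TOW (SG secr_const)

variable {X : Type}

theorem Pk_sec (d : X) (k : ℕ) : Pk d k ≤ SG (Pk d k) := by
  classical
  induction k with
  | zero =>
    show Pz d ≤ SG (Pz d)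
    conv_lhs => rw [Pz]
    rw [Subgroup.closure_le]
    rintro g (⟨n, hn⟩ | ⟨ξ, rfl⟩) x
    · exact Subgroup.subset_closure (Or.inl ⟨n, isDep_sec hn x⟩)
    · by_cases hx : x = d
      · subst hx
        rw [sec_cray]
        exact Subgroup.subset_closure (Or.inr ⟨_, rfl⟩)
      · rw [sec_cray_ne d ξ x hx]
        exact one_mem _
  | succ k ih =>
    show Pk d k ⊔ Bs d (Pk d k) ≤ _
    apply sup_le
    · intro g hg x
      exact Pk_le d k (ih hg x)
    · intro b hb x
      by_cases hx : x = d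
      · subst hx
        exact (le_sup_right : Bs x (Pk x k) ≤ Pk x k ⊔ Bs x (Pk x k)) (Bs_sec x hb)
      · exact Pk_le d k (hb.2.1 0 x hx)

theorem Bk_le_Pk (d : X) (k : ℕ) : Bk d k ≤ Pk d k := by
  cases k with
  | zero => exact bot_le
  | succ k => exact le_sup_right

theorem Pk_sd (d : X) (k n : ℕ) (g : T X) (hg : g ∈ Pk d k) : sd d n g ∈ Pk d k := by
  induction n with
  | zero => exact hg
  | succ n ih =>
    rw [sd_succ']
    exact Pk_sec d k ih d

theorem fixA (d : X) (k : ℕ) (g : T X) (hg : g ∈ Ak d k) : ∃ n, sd d n g ∈ Bk d k := by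
  obtain ⟨hg, hfix⟩ := hg
  obtain ⟨n, b, hb, h⟩ := t_GERM X d k g hg (fun _ => d)
  have h1 : gray g (fun _ => d) = fun _ => d := by
    funext i
    show root (secr i (fun _ => d) g) d = d
    rw [secr_const]
    exact hfix i
  have h2 : sftn n (fun _ : ℕ => d) = fun _ => d := rfl
  rw [h1, h2, cray_const, secr_const, inv_one, one_mul, mul_one] at h
  exact ⟨n, by rw [h]; exact hb⟩

theorem A_le_B [Finite X] (d : X) (k : ℕ) : Ak d k ≤ Bk d (k + 1) := by
  intro g hg
  refine ⟨hg.2, fun n x _ => Pk_sec d k (Pk_sd d k n g hg.1) x, ?_⟩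
  obtain ⟨n, hn⟩ := fixA d k g hg
  have hf : (offs d (sd d n g)).Finite := (Bk_le d k hn).2.2
  have hf' : (Set.range fun p : Fin n × X => sec (sd d p.1 g) p.2).Finite := Set.finite_range _
  refine (hf.union hf').subset ?_
  rintro _ ⟨m, x, hx, rfl⟩
  by_cases hm : m < n
  · right
    exact ⟨(⟨m, hm⟩, x), rfl⟩
  · left
    refine ⟨m - n, x, hx, ?_⟩
    rw [← sd_add]
    congr 2
    omega

theorem t_TOW : S_TOW := by
  intro _ X hX d
  refine ⟨⟨Pk_le d, Bk_le d, Bk_le_Pk d, rfl, fun k g hg x => Pk_sec d k hg x,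
    fun k b hb => Bk_root d k hb, fun k b hb => Bk_sec d k hb, fun k b hb x hx => hb.2.1 0 x hx⟩,
    fun k => rfl, ?_, A_le_B d, fun k g => Iff.rfl, fixA d⟩
  intro k b hb
  refine ⟨Bk_le_Pk d k hb, fun n => ?_⟩
  cases k with
  | zero =>
    have h1 : b = 1 := Subgroup.mem_bot.mp hb
    rw [h1, sd_one, root_one]
    rfl
  | succ k => exact hb.1 n

end Pool.Agent.T2h30.PF.TOW
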