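import Pool.Agent.T2h30.PA.T_EMB
import Pool.Agent.T2h30.PA.T_TT
import Pool.Agent.T2h30.PA.T_JJ
import Pool.Agent.T2h30.PF.T_REC
import Pool.Agent.T2h30.PF.T_LIM
import Pool.Agent.T2h30.PF.T_A
import Pool.Agent.T2h30.PF.T_B
import Pool.Agent.T2h30.PF.T_FOLD
import Pool.Agent.T2h30.PF.T_SUB
import Pool.Agent.T2h30.PF.T_INIT
import Pool.Agent.T2h30.PF.T_STAB
import Pool.Agent.T2h30.PF.T_MAIN
import Pool.Agent.T2h30.PF.T_GERM
import Pool.Agent.T2h30.PF.T_TOW
import Pool.Agent.T2h30.PF.T_PZ
import Pool.Agent.T2h30.PF.T_BC
import Pool.Agent.T2h30.PF.T_RK
import Pool.Agent.T2h30.PF.T_FIN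

/-!
# Groups generated by tree automorphisms of finite rank

`C` is any class of groups with the closure properties `ClosedE C`: it contains the infinite cyclic
group, it is closed under subgroups, finite products, free products, overgroups of finite index and
colimits of directed systems, and it contains `G` if there is a surjection from `G` to a group `Q` in `C`
such that the preimages of all virtually cyclic subgroups of `Q` are in `C`. All this is known for the
class of the groups whose wreath products with finite groups satisfy the L-theoretic
Farrell–Jones conjecture with coefficients in additive categories with involution; for a torsionfree group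
`G` in this class the assembly maps `A_n` are bijective for every ring with involution (the relative
assembly map from the trivial family to the family of the virtually cyclic subgroups is bijective by
Shaneson splitting).

`Rank k f` (`Pool.Agent.T2h30.PF.Rank`): `f` has finite depth if `k = 0`; for `k + 1` there is a
finite set of rays such that the sections of `f` at the minimal words off these rays are finitely many
automorphisms of rank at most `k`. The rays are arbitrary (they need not be eventually periodic) and
the section at a minimal word off the rays may depend on the word in an arbitrary way, so `f` has in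
general infinitely many sections. Finite-state automorphisms of polynomial activity of degree `m`
(Sidki) have finite rank (`Pool.Agent.T2h30.PF.FIN.rank_of_polyActivity`).

Outline of the proof. Fix a letter `d`. Let `P 0` be generated by the automorphisms of finite depth and
by the automorphisms `cray d ξ` which move the ray `d d d ...` to the ray `ξ` and are trivial off the ray
`d d d ...` (these groups are in `C` by the starting result `MP_490288_al.BoundedAutomata`). Let `B 0 = 1`,
`B (k + 1)` the group of the automorphisms which fix the ray `d d d ...` and have finitely many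
sections off the ray, all in `P k`, and `P (k + 1) = ⟨P k, B (k + 1)⟩`. Every automorphism of rank `k` is in
`P k`. If `P k` is in `C` then so is `B (k + 1)`, because its finitely generated subgroups embed into
finite powers of `P k ≀ Perm X`. Let `A k` be the stabilizer of the ray `d d d ...` in `P k`. It is contained in
`B (k + 1)`, every element of `A k` has a section on the ray which is in `B k`, and `P (k + 1)` is the
quotient of the amalgam `Γ` of `P k` and `B (k + 1)` over `A k` by the elements which are trivialized by the
iterated recursions `Γ → Γ ≀ Perm X`. This reduces the claim `C (P (k + 1))` to `C Γ`. The edge group `A k`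
is reached from the trivial group in infinitely many steps `B m ⟶ A m ⟶ B (m + 1)`, `m < k`, and
`B k ⟶ A k`: the step from `B m` to `A m` uses that the recursion leads from the group of the elements
of `A m` with `(n + 1)`-th section on the ray in `B m` to the same group for `n`, and colimits over `n`; the
step from `A m` to `B (m + 1)` uses star amalgams as in the finite-state case
(`MP_9d1ffa_al.PolynomialAutomata`, files `Pool.Agent.T2h30.PA`).

Contributors to the Lean code (project PA, which is adapted here): helper1, helper2, helper25, helper28,
helper46, helper71, helper30.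
-/

set_option autoImplicit false

namespace Pool.Agent.T2h30.PF.FiniteRankTreeAutomorphisms

open Pool.Agent.Y110.FJ Pool.Agent.Y462.SS Pool.Agent.T2h30.PA Pool.Agent.T2h30.PF

theorem emb : S_EMB := Pool.Agent.T2h30.PA.EMB.t_EMB
theorem tt : S_TT := Pool.Agent.T2h30.PA.TT.t_TT emb
theorem jj : S_JJ := Pool.Agent.T2h30.PA.JJ.t_JJ emb

/-- the groups `P k` of a tower are in `C` -/
theorem tower (C : ∀ (G : Type) [Group G], Prop) (hC : ClosedE C) (X : Type) (hX : Finite X)
    (d : X) (P A B : ℕ → Subgroup (T X)) (ht : Tw d P A B) (h0 : C (P 0))
    (hB : ∀ k, C (P k) → C (B (k + 1))) (k : ℕ) : C (P k) :=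
  Pool.Agent.T2h30.PF.MAIN.t_MAIN Pool.Agent.T2h30.PF.A.t_A Pool.Agent.T2h30.PF.B.t_B
    Pool.Agent.T2h30.PF.FOLD.t_FOLD Pool.Agent.T2h30.PF.SUB.t_SUB Pool.Agent.T2h30.PF.INIT.t_INIT
    Pool.Agent.T2h30.PF.STAB.t_STAB Pool.Agent.T2h30.PF.STEP.t_STEP Pool.Agent.T2h30.PF.UNI.t_UNI
    Pool.Agent.T2h30.PF.REC.t_REC tt jj Pool.Agent.T2h30.PF.LIM.t_LIM
    C hC X hX d P A B ht h0 hB k

/-- Let `C` be a class of groups with the closure properties `ClosedE C`. Every group `G` of
automorphisms of a regular rooted tree `X^*`, `X` finite, which is generated by automorphisms of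
finite rank is in `C`. -/
theorem result (C : ∀ (G : Type) [Group G], Prop) (hC : ClosedE C) (X : Type) (hX : Finite X)
    (G : Type) [Group G] (f : G →* Equiv.Perm (List X)) (hf : Function.Injective f)
    (S : Set G) (hS : Subgroup.closure S = ⊤) (hT : ∀ s ∈ S, IsTree (f s))
    (hR : ∀ s ∈ S, ∃ k, Rank k (f s : List X → List X)) : C G :=
  Pool.Agent.T2h30.PF.FIN.t_FIN tower
    (Pool.Agent.T2h30.PF.TOW.t_TOW Pool.Agent.T2h30.PF.GERM.t_GERM)
    Pool.Agent.T2h30.PF.PZ.t_PZ Pool.Agent.T2h30.PF.BC.t_BC Pool.Agent.T2h30.PF.RK.t_RK
    C hC X hX G f hf S hS hT hR

end Pool.Agent.T2h30.PF.FiniteRankTreeAutomorphisms
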