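import Pool.Agent.Y110.FJ.Stm

/-!
# Automorphisms of finite rank of the rooted tree of words (project PF, helper30)
-/

set_option autoImplicit false

namespace Pool.Agent.T2h30.PF

open Pool.Agent.Y462.SS

/-- the section of the map `f` at the word `v`: the words `f (v w)` without their first `|v|` letters -/
def sct {X : Type} (f : List X → List X) (v : List X) : List X → List X :=
  fun w => (f (v ++ w)).drop v.length

/-- `u` is a minimal word which is not a prefix of one of the rays in `R` (`R` is a finite set of
infinite words) -/
def MinOff {X : Type} (R : Finset (ℕ → X)) (u : List X) : Prop :=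
  (∀ ρ ∈ R, ¬ OnRay ρ u) ∧ ∀ (v : List X) (x : X), u = v ++ [x] → ∃ ρ ∈ R, OnRay ρ v

/-- `Rank k f`: the map `f` has rank at most `k`. Rank `0`: finite depth. Rank at most `k + 1`: there is
a finite set `R` of rays such that the sections of `f` at the minimal words which are not prefixes of
rays in `R` have rank at most `k` and are finitely many maps. -/
def Rank {X : Type} : ℕ → (List X → List X) → Prop
  | 0, f => ∃ n : ℕ, ∀ u w : List X, u.length = n → f (u ++ w) = f u ++ w
  | k + 1, f => ∃ R : Finset (ℕ → X), (∀ u, MinOff R u → Rank k (sct f u)) ∧
      {h : List X → List X | ∃ u, MinOff R u ∧ h = sct f u}.Finite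

end Pool.Agent.T2h30.PF
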