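import Pool.Agent.T2h30.PA.Stm

/-!
# Project PF (helper30): groups of automorphisms of finite rank are Farrell–Jones groups

Extension of project PA (automata of polynomial activity) to automorphisms which need not be finite-state.
The new point: the edge group of the cover of `P (k + 1)` is the stabilizer `A k` of the ray `d d d ...`
in `P k`; it is the increasing union of the groups `An n` of the elements whose `n`-th section on the ray
is in `B k`, and the recursion leads from the edge group `An (n + 1)` to the edge group `An n`.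
-/

set_option autoImplicit false

namespace Pool.Agent.T2h30.PF

open Pool.Agent.Y110.FJ Pool.Agent.Y462.SS Pool.Agent.T2h30.PA

variable {X : Type}

/-- the properties of the groups `P k` and `B k` which are used for the stars -/
structure Tw0 (d : X) (P B : ℕ → Subgroup (T X)) : Prop where
  P_le : ∀ k, P k ≤ P (k + 1)
  B_le : ∀ k, B k ≤ B (k + 1)
  B_le_P : ∀ k, B k ≤ P k
  B_zero : B 0 = ⊥
  P_sec : ∀ k, ∀ g ∈ P k, ∀ x, sec g x ∈ P k
  B_root : ∀ k, ∀ b ∈ B k, root b d = d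
  B_sec : ∀ k, ∀ b ∈ B k, sec b d ∈ B k
  B_off : ∀ k, ∀ b ∈ B (k + 1), ∀ x, x ≠ d → sec b x ∈ P k

/-- the properties of the groups `P k`, `A k` (the stabilizer of the ray in `P k`) and `B k` -/
structure Tw (d : X) (P A B : ℕ → Subgroup (T X)) : Prop where
  tw : Tw0 d P B
  P_sup : ∀ k, P (k + 1) = P k ⊔ B (k + 1)
  B_le_A : ∀ k, B k ≤ A k
  A_le_B : ∀ k, A k ≤ B (k + 1)
  A_iff : ∀ k g, g ∈ A k ↔ g ∈ P k ∧ ∀ n, root (sd d n g) d = d
  fix : ∀ k, ∀ g ∈ A k, ∃ n, sd d n g ∈ B k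

/-- the cover of `P (k + 1)`: the amalgam of `P k` and `B (k + 1)` over `A k` -/
abbrev Gam (P A B : ℕ → Subgroup (T X)) (k : ℕ) : Type :=
  Star (fun _ : Unit => incl (A k) (P k)) (fun _ : Unit => incl (A k) (B (k + 1)))

/-- the inclusion of `P k` into the cover -/
noncomputable def gC (P A B : ℕ → Subgroup (T X)) (k : ℕ) : P k →* Gam P A B k :=
  starC (fun _ : Unit => incl (A k) (P k)) (fun _ : Unit => incl (A k) (B (k + 1)))

/-- the inclusion of `B (k + 1)` into the cover -/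
noncomputable def gL (P A B : ℕ → Subgroup (T X)) (k : ℕ) : B (k + 1) →* Gam P A B k :=
  starL (fun _ : Unit => incl (A k) (P k)) (fun _ : Unit => incl (A k) (B (k + 1))) ()

/-- the recursion `ψ` and the projection `π` of the cover of `P (k + 1)` -/
structure GamRec (d : X) (P A B : ℕ → Subgroup (T X)) (k : ℕ)
    (ψ : Gam P A B k →* Wr X (Gam P A B k)) (π : Gam P A B k →* T X) : Prop where
  cov : Cov (Gam P A B k) ψ π (P (k + 1))
  piC : ∀ a : P k, π (gC P A B k a) = a
  piL : ∀ b : B (k + 1), π (gL P A B k b) = b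
  secC : ∀ (a a' : P k) (x : X), (a' : T X) = sec a x →
    (ψ (gC P A B k a)).s x = gC P A B k a'
  secL : ∀ b b' : B (k + 1), (b' : T X) = sec b d → (ψ (gL P A B k b)).s d = gL P A B k b'
  secO : ∀ (b : B (k + 1)) (a : P k) (x : X), x ≠ d → (a : T X) = sec b x →
    (ψ (gL P A B k b)).s x = gC P A B k a

/-- **REC**. The recursion of the cover (as in project PA). -/
def S_REC : Prop := ∀ (X : Type) (d : X) (P A B : ℕ → Subgroup (T X)), Tw d P A B →
  ∀ k, ∃ ψ π, GamRec d P A B k ψ π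

section layers

variable (P B : ℕ → Subgroup (T X)) {ι : Type}

/-- the edge groups of the layers and one more edge group `K` -/
def Ky (K : Subgroup (T X)) (c : ι → ℕ) : Option (ι × Bool) → Subgroup (T X)
  | none => K
  | some j => Kf P B c j

/-- the star with center `P e`, the layers `(c i, E i)` and one more leaf `B (e + 1)` attached along
`K` -/
abbrev SPy (e : ℕ) (K : Subgroup (T X)) (c E : ι → ℕ) : Type :=
  Star (fun j : Option (ι × Bool) => incl (Ky P B K c j) (P e))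
    (fun j => incl (Ky P B K c j) (Lx P B e E j))

/-- **LIM**. Approximation of the center (as in project PA). -/
def S_LIM : Prop := S_TT → ∀ (C : ∀ (G : Type) [Group G], Prop), ClosedE C → ∀ (X : Type),
  Finite X →
  ∀ (d : X) (P B : ℕ → Subgroup (T X)), Tw0 d P B → ∀ (ι : Type) (c E : ι → ℕ) (e : ℕ),
  (∀ i, c i ≤ E i) → (∀ i, c i < e) →
  ∀ (Γ : Type) [Group Γ] (ψ : Γ →* Wr X Γ) (π : Γ →* T X), Cov Γ ψ π (P e) →
  ∀ φ : (∀ j : ι × Bool, Kf P B c j →* Γ), AttRec P B d c Γ ψ π φ →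
  Function.Injective (starC φ (kap P B c E)) → C (Star φ (kap P B c E)) → C (SP P B e c E)

/-- **A**. From the center `P e` with one more leaf to the center `P (e + 1)`. -/
def S_A : Prop := S_REC → S_TT → S_JJ → S_LIM →
  ∀ (C : ∀ (G : Type) [Group G], Prop), ClosedE C → ∀ (X : Type), Finite X →
  ∀ (d : X) (P A B : ℕ → Subgroup (T X)), Tw d P A B → ∀ (ι : Type) (c E : ι → ℕ) (e : ℕ),
  (∀ i, c i ≤ E i) → (∀ i, c i < e) → C (SPy P B e (A e) c E) → C (SP P B (e + 1) c E)

/-- **B**. Elimination of a layer. -/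
def S_B : Prop := S_REC → S_TT → S_JJ → S_LIM →
  ∀ (C : ∀ (G : Type) [Group G], Prop), ClosedE C → ∀ (X : Type), Finite X →
  ∀ (d : X) (P A B : ℕ → Subgroup (T X)), Tw d P A B → ∀ (ι : Type) (c E : ι → ℕ) (m F : ℕ),
  (∀ i, c i ≤ E i) → (∀ i, c i < m) → m ≤ F → C (SPy P B F (A m) c E) →
  C (SP P B (m + 1) (addl c m) (addl E F))

/-- **FOLD**. -/
def S_FOLD : Prop := S_TT → ∀ (C : ∀ (G : Type) [Group G], Prop), ClosedE C → ∀ (X : Type),
  ∀ (d : X) (P B : ℕ → Subgroup (T X)), Tw0 d P B → ∀ (ι : Type) (c E : ι → ℕ) (e : ℕ) (i₀ : ι),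
  (∀ i, c i ≤ E i) → (∀ i, c i < e) → e ≤ E i₀ → C (SP P B e c E) →
  C (SPy P B e (B (c i₀ + 1)) c E)

/-- **SUB**. -/
def S_SUB : Prop := S_TT → ∀ (C : ∀ (G : Type) [Group G], Prop), ClosedE C → ∀ (X : Type),
  ∀ (d : X) (P B : ℕ → Subgroup (T X)), Tw0 d P B → ∀ (ι : Type) (c E : ι → ℕ) (e m : ℕ),
  (∀ i, c i ≤ E i) → (∀ i, c i < e) → m < e → C (SP P B e (addl c m) (addl E e)) →
  C (SPy P B e (B (m + 1)) c E)

/-- **INIT**. -/
def S_INIT : Prop := S_TT → ∀ (C : ∀ (G : Type) [Group G], Prop), ClosedE C → ∀ (X : Type),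
  ∀ (d : X) (P B : ℕ → Subgroup (T X)), Tw0 d P B → ∀ (ι : Type) [IsEmpty ι] (c E : ι → ℕ)
  (e : ℕ), (C (P e) → C (B (e + 1)) → C (SPy P B e (B 0) c E)) ∧ (C (P e) ↔ C (SP P B e c E))

/-- **STEP** (about 120 lines). One step in the edge group of the extra leaf.
PROOF. Homomorphism `SPy P B e K' c E →* Wr X (SPy P B e K c E)`: `a ↦ (x ↦ starC (sec a x), root a)` on the
center, `g ↦ (x ↦ starL (some (i, false)) (sec g x), root g)` on the leaf `P (E i)`,
`b ↦ (x ↦ if x = d then starL (some (i, true)) (sec b d) else starL (some (i, false)) (sec b x), root b)` on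
the leaf `B (E i + 1)`, `b ↦ (x ↦ if x = d then starL none (sec b d) else starC (sec b x), root b)` on
the leaf `B (e + 1)`. Compatible: `sec k d ∈ K` for `k ∈ K'`. Injective on the center and on the leaves.
`S_TT` with `Q = Wr X (SPy P B e K c E)` (in `C` by `Pool.Agent.Y812.SS.t_wr`). -/
def S_STEP : Prop := S_TT → ∀ (C : ∀ (G : Type) [Group G], Prop), ClosedE C → ∀ (X : Type),
  Finite X → ∀ (d : X) (P B : ℕ → Subgroup (T X)), Tw0 d P B → ∀ (ι : Type) (c E : ι → ℕ)
  (e : ℕ), (∀ i, c i ≤ E i) → (∀ i, c i < e) → ∀ K K' : Subgroup (T X), K ≤ P e →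
  K ≤ B (e + 1) → K' ≤ P e → K' ≤ B (e + 1) → (∀ k ∈ K', sec k d ∈ K) →
  C (SPy P B e K c E) → C (SPy P B e K' c E)

/-- **UNI** (about 100 lines). Increasing unions of the edge group of the extra leaf.
PROOF. `ClosedE.base.colim` over `ℕ`; the homomorphisms are the identities on the center and on the
leaves. The kernel: let `M` be the (normal) subgroup of the elements of `SPy P B e (K n) c E` which become
`1` in some `SPy P B e (K m) c E`; for `k ∈ K'` the elements `starC k` and `starL none k` are equal modulo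
`M`, so there is a homomorphism `SPy P B e K' c E →* SPy P B e (K n) c E ⧸ M` and the composite with
`SPy P B e (K n) c E →* SPy P B e K' c E` is the projection. -/
def S_UNI : Prop := ∀ (C : ∀ (G : Type) [Group G], Prop), ClosedE C → ∀ (X : Type),
  ∀ (d : X) (P B : ℕ → Subgroup (T X)), Tw0 d P B → ∀ (ι : Type) (c E : ι → ℕ)
  (e : ℕ), (∀ i, c i ≤ E i) → (∀ i, c i < e) → ∀ (K : ℕ → Subgroup (T X)) (K' : Subgroup (T X)),
  K' ≤ P e → K' ≤ B (e + 1) → (∀ n, K n ≤ K (n + 1)) → (∀ n, K n ≤ K') →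
  (∀ k ∈ K', ∃ n, k ∈ K n) → (∀ n, C (SPy P B e (K n) c E)) → C (SPy P B e K' c E)

/-- **STAB**. From the edge group `B m` to the edge group `A m`.
PROOF. `S_STEP` and `S_UNI` with `K n` the elements `g` of `A m` with `sd d n g ∈ B m`. -/
def S_STAB : Prop := S_TT → S_STEP → S_UNI → ∀ (C : ∀ (G : Type) [Group G], Prop), ClosedE C →
  ∀ (X : Type), Finite X → ∀ (d : X) (P A B : ℕ → Subgroup (T X)), Tw d P A B →
  ∀ (ι : Type) (c E : ι → ℕ) (e m : ℕ), (∀ i, c i ≤ E i) → (∀ i, c i < e) → m ≤ e →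
  C (SPy P B e (B m) c E) → C (SPy P B e (A m) c E)

/-- **MAIN**. The double induction. -/
def S_MAIN : Prop := S_A → S_B → S_FOLD → S_SUB → S_INIT → S_STAB → S_STEP → S_UNI → S_REC →
  S_TT → S_JJ → S_LIM →
  ∀ (C : ∀ (G : Type) [Group G], Prop), ClosedE C → ∀ (X : Type), Finite X →
  ∀ (d : X) (P A B : ℕ → Subgroup (T X)), Tw d P A B → C (P 0) →
  (∀ k, C (P k) → C (B (k + 1))) → ∀ k, C (P k)

end layers

end Pool.Agent.T2h30.PF
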