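import Pool.Agent.T2h30.PF.Stm
import Pool.Agent.T2h30.PA.Stm2
import Pool.Agent.T2h30.PA.T_GERM

/-!
# Project PF (helper30), second part: the tower of the automorphisms of finite rank
-/

set_option autoImplicit false

namespace Pool.Agent.T2h30.PF

open Pool.Agent.Y110.FJ Pool.Agent.Y462.SS Pool.Agent.T2h30.PA
open Pool.Agent.T2h30.PA.GERM (sftn_gray secr_mul gray_mul secr_succ secr_add secr_one)

variable {X : Type}

/-- `P 0`: generated by the automorphisms of finite depth and the automorphisms which move the ray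
`d d d ...` to another ray -/
def Pz (d : X) : Subgroup (T X) :=
  Subgroup.closure ({g | ∃ k, IsDep k g} ∪ {g | ∃ ξ, g = cray d ξ})

/-- the sections of `b` off the ray `d d d ...` -/
def offs (d : X) (b : T X) : Set (T X) := {h | ∃ n x, x ≠ d ∧ h = sec (sd d n b) x}

/-- the group of the automorphisms which fix the ray `d d d ...` and have finitely many sections
off the ray, all in `Q` -/
def Bs (d : X) (Q : Subgroup (T X)) : Subgroup (T X) where
  carrier := {b | (∀ n, root (sd d n b) d = d) ∧ (∀ n x, x ≠ d → sec (sd d n b) x ∈ Q) ∧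
    (offs d b).Finite}
  one_mem' := by
    refine ⟨fun n => ?_, fun n x _ => ?_, (Set.finite_singleton (1 : T X)).subset ?_⟩
    · rw [sd_one, root_one]
      rfl
    · rw [sd_one, sec_one]
      exact one_mem Q
    · rintro _ ⟨n, x, _, rfl⟩
      rw [sd_one, sec_one]
      rfl
  mul_mem' := by
    rintro a b ⟨ha, ha', hap⟩ ⟨hb, hb', hbq⟩
    have hne : ∀ n x, x ≠ d → root (sd d n b) x ≠ d := fun n x hx h =>
      hx ((root (sd d n b)).injective (h.trans (hb n).symm))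
    refine ⟨fun n => ?_, fun n x hx => ?_, (hap.image2 (fun u v => u * v) hbq).subset ?_⟩
    · rw [sd_mul d n a b hb, root_mul, Equiv.Perm.mul_apply, hb, ha]
    · rw [sd_mul d n a b hb, sec_mul]
      exact Q.mul_mem (ha' n _ (hne n x hx)) (hb' n x hx)
    · rintro _ ⟨n, x, hx, rfl⟩
      rw [sd_mul d n a b hb, sec_mul]
      exact ⟨_, ⟨n, _, hne n x hx, rfl⟩, _, ⟨n, x, hx, rfl⟩, rfl⟩
  inv_mem' := by
    rintro a ⟨ha, ha', hap⟩
    have hne : ∀ n x, x ≠ d → (root (sd d n a))⁻¹ x ≠ d := fun n x hx h => by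
      rw [Equiv.Perm.inv_eq_iff_eq, ha n] at h
      exact hx h
    refine ⟨fun n => ?_, fun n x hx => ?_, (hap.image (fun u => u⁻¹)).subset ?_⟩
    · rw [sd_inv d n a ha]
      exact root_inv_fix _ d (ha n)
    · rw [sd_inv d n a ha, sec_inv]
      exact Q.inv_mem (ha' n _ (hne n x hx))
    · rintro _ ⟨n, x, hx, rfl⟩
      rw [sd_inv d n a ha, sec_inv]
      exact ⟨_, ⟨n, _, hne n x hx, rfl⟩, rfl⟩

/-- the groups `P k` -/
def Pk (d : X) : ℕ → Subgroup (T X)
  | 0 => Pz d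
  | k + 1 => Pk d k ⊔ Bs d (Pk d k)

/-- the groups `B k` -/
def Bk (d : X) : ℕ → Subgroup (T X)
  | 0 => ⊥
  | k + 1 => Bs d (Pk d k)

/-- the groups `A k`: the stabilizers of the ray `d d d ...` in `P k` -/
def Ak (d : X) (k : ℕ) : Subgroup (T X) where
  carrier := {g | g ∈ Pk d k ∧ ∀ n, root (sd d n g) d = d}
  one_mem' := ⟨one_mem _, fun n => by rw [sd_one, root_one]; rfl⟩
  mul_mem' := by
    rintro a b ⟨ha, ha'⟩ ⟨hb, hb'⟩
    refine ⟨mul_mem ha hb, fun n => ?_⟩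
    rw [sd_mul d n a b hb', root_mul, Equiv.Perm.mul_apply, hb', ha']
  inv_mem' := by
    rintro a ⟨ha, ha'⟩
    refine ⟨inv_mem ha, fun n => ?_⟩
    rw [sd_inv d n a ha']
    exact root_inv_fix _ d (ha' n)

/-- **GERM** -/
def S_GERM : Prop := ∀ (X : Type) (d : X) (k : ℕ), ∀ g ∈ Pk d k, ∀ ξ : ℕ → X,
  ∃ n : ℕ, ∃ b ∈ Bk d k,
    secr n ξ g = cray d (sftn n (gray g ξ)) * b * (cray d (sftn n ξ))⁻¹

/-- **TOW** -/
def S_TOW : Prop := S_GERM → ∀ (X : Type), Finite X → ∀ (d : X), Tw d (Pk d) (Ak d) (Bk d)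

/-- **LV** -/
def S_LV : Prop := ∀ (X : Type), Finite X → ∀ (d : X) (k : ℕ) (g : T X),
  (∀ x, sec g x ∈ Pk d k) → g ∈ Pk d k

/-- **PZ** -/
def S_PZ : Prop := ∀ (C : ∀ (G : Type) [Group G], Prop), ClosedE C → ∀ (X : Type), Finite X →
  ∀ d : X, C (Pz d)

/-- **BC** -/
def S_BC : Prop := ∀ (C : ∀ (G : Type) [Group G], Prop), ClosedE C → ∀ (X : Type), Finite X →
  ∀ (d : X) (Q : Subgroup (T X)), C Q → C (Bs d Q)

/-- `u` is a prefix of the ray `ρ` -/
def OnR : (ℕ → X) → List X → Prop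
  | _, [] => True
  | ρ, x :: u => ρ 0 = x ∧ OnR (sft ρ) u

/-- `u` is a minimal word which is not a prefix of one of the rays in `R` -/
def Leaf (R : Set (ℕ → X)) (u : List X) : Prop :=
  (∀ ρ ∈ R, ¬ OnR ρ u) ∧ ∀ v x, u = v ++ [x] → ∃ ρ ∈ R, OnR ρ v

/-- automorphisms of finite rank -/
def Rk : ℕ → T X → Prop
  | 0, g => ∃ n, IsDep n g
  | k + 1, g => ∃ R : Set (ℕ → X), R.Finite ∧ (∀ u, Leaf R u → Rk k (secw u g)) ∧
      {h | ∃ u, Leaf R u ∧ h = secw u g}.Finite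

/-- **RK** -/
def S_RK : Prop := ∀ (X : Type), Finite X → ∀ (d : X) (k : ℕ) (g : T X), Rk k g → g ∈ Pk d k

end Pool.Agent.T2h30.PF
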