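import Pool.Agent.T2h30.PF.Rank
import Pool.Agent.T2h30.PF.T_RK
import Pool.Agent.T2h30.PA.T_TRA
import Pool.Agent.T2h30.PA.T_PZ
import Pool.Agent.Y430.SS.Lf

/-!
# Project PF (helper30), task FIN
-/

set_option autoImplicit false

namespace Pool.Agent.T2h30.PF.FIN

open Pool.Agent.Y110.FJ Pool.Agent.Y462.SS Pool.Agent.T2h30.PA
open Pool.Agent.T2h30.PA.POLY (pre)
open Pool.Agent.T2h30.PA.TRA (secw_apply)

variable {X : Type}

theorem sct_eq (g : T X) (v : List X) : sct (g.1 : List X → List X) v = (secw v g).1 := by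
  funext w
  show (g.1 (v ++ w)).drop v.length = _
  rw [secw_apply]
  exact List.drop_left' (g.2.1 v)

theorem pre_ofFn (n : ℕ) : ∀ ρ : ℕ → X, pre n ρ = List.ofFn (fun i : Fin n => ρ i) := by
  induction n with
  | zero => intro ρ; rfl
  | succ n ih =>
    intro ρ
    rw [List.ofFn_succ, pre, ih]
    rfl

theorem onRay_iff (ρ : ℕ → X) (v : List X) : OnRay ρ v ↔ OnR ρ v := by
  rw [RK.onR_pre, OnRay, pre_ofFn]

theorem minOff_iff (R : Finset (ℕ → X)) (u : List X) : MinOff R u ↔ Leaf (R : Set (ℕ → X)) u := by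
  constructor
  · rintro ⟨h1, h2⟩
    refine ⟨fun ρ hρ h => h1 ρ hρ ((onRay_iff ρ u).2 h), fun v x hv => ?_⟩
    obtain ⟨ρ, hρ, h⟩ := h2 v x hv
    exact ⟨ρ, hρ, (onRay_iff ρ v).1 h⟩
  · rintro ⟨h1, h2⟩
    refine ⟨fun ρ hρ h => h1 ρ hρ ((onRay_iff ρ u).1 h), fun v x hv => ?_⟩
    obtain ⟨ρ, hρ, h⟩ := h2 v x hv
    exact ⟨ρ, hρ, (onRay_iff ρ v).2 h⟩

theorem dep_of (n : ℕ) : ∀ g : T X, (∀ u w : List X, u.length = n → g.1 (u ++ w) = g.1 u ++ w) →
    IsDep n g := by
  induction n with
  | zero =>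
    intro g h
    rw [isDep_zero]
    apply Subtype.ext
    apply Equiv.ext
    intro w
    have h1 := h [] w rfl
    rw [nil_eq, List.nil_append] at h1
    exact h1
  | succ n ih =>
    intro g h x
    apply ih
    intro u w hu
    have h1 := h (x :: u) w (by rw [List.length_cons, hu])
    rw [List.cons_append, cons_eq, cons_eq, List.cons_append] at h1
    exact (List.cons.inj h1).2

theorem coe_inj : Function.Injective (fun t : T X => (t.1 : List X → List X)) := by
  intro a b hab
  apply Subtype.ext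
  apply Equiv.ext
  exact fun w => congrFun hab w

theorem rk_of_rank (k : ℕ) : ∀ g : T X, Rank k (g.1 : List X → List X) → Rk k g := by
  induction k with
  | zero =>
    rintro g ⟨n, hn⟩
    exact ⟨n, dep_of n g hn⟩
  | succ k ih =>
    rintro g ⟨R, h1, h2⟩
    refine ⟨R, R.finite_toSet, fun u hu => ih _ ?_, ?_⟩
    · rw [← sct_eq]
      exact h1 u ((minOff_iff R u).2 hu)
    · refine Set.Finite.of_finite_image (f := fun t : T X => (t.1 : List X → List X))
        (h2.subset ?_) coe_inj.injOn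
      rintro _ ⟨_, ⟨u, hu, rfl⟩, rfl⟩
      exact ⟨u, (minOff_iff R u).2 hu, (sct_eq g u).symm⟩

theorem rank_of_rk (k : ℕ) : ∀ g : T X, Rk k g → Rank k (g.1 : List X → List X) := by
  induction k with
  | zero =>
    rintro g ⟨n, hn⟩
    exact ⟨n, fun u w hu => Pool.Agent.T2h30.PA.PZ.dep_app n g hn u w hu⟩
  | succ k ih =>
    rintro g ⟨R, hR, h1, h2⟩
    have hm : ∀ u, MinOff hR.toFinset u ↔ Leaf R u := by
      intro u
      rw [minOff_iff, Set.Finite.coe_toFinset]
    refine ⟨hR.toFinset, fun u hu => ?_, ?_⟩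
    · rw [sct_eq]
      exact ih _ (h1 u ((hm u).1 hu))
    · refine (h2.image (fun t : T X => (t.1 : List X → List X))).subset ?_
      rintro _ ⟨u, hu, rfl⟩
      exact ⟨secw u g, ⟨u, (hm u).1 hu, rfl⟩, (sct_eq g u).symm⟩

/-- finite-state automorphisms of polynomial activity have finite rank -/
theorem rank_of_polyActivity (X : Type) [Finite X] (g : Equiv.Perm (List X)) (hT : IsTree g)
    (hF : (Sections g).Finite) (hP : PolyActivity g) : ∃ k, Rank k (g : List X → List X) := by
  obtain ⟨k, hk⟩ := RK.poly_rk (⟨g, hT⟩ : T X)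
    ((Pool.Agent.T2h30.PA.TRA.t_TRA X ⟨g, hT⟩).1 hF)
    ((Pool.Agent.T2h30.PA.TRA.t_TRA X ⟨g, hT⟩).2 hP)
  exact ⟨k, rank_of_rk k ⟨g, hT⟩ hk⟩

/-- the final theorem -/
theorem t_FIN (hMAIN : ∀ (C : ∀ (G : Type) [Group G], Prop), ClosedE C → ∀ (X : Type), Finite X →
    ∀ (d : X) (P A B : ℕ → Subgroup (T X)), Tw d P A B → C (P 0) →
    (∀ k, C (P k) → C (B (k + 1))) → ∀ k, C (P k))
    (hTOW : ∀ (X : Type), Finite X → ∀ (d : X), Tw d (Pk d) (Ak d) (Bk d)) (hPZ : S_PZ)
    (hBC : S_BC) (hRK : S_RK)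
    (C : ∀ (G : Type) [Group G], Prop) (hC : ClosedE C) (X : Type) (hX : Finite X)
    (G : Type) [Group G] (f : G →* Equiv.Perm (List X)) (hf : Function.Injective f)
    (S : Set G) (hS : Subgroup.closure S = ⊤) (hT : ∀ s ∈ S, IsTree (f s))
    (hR : ∀ s ∈ S, ∃ k, Rank k (f s : List X → List X)) : C G := by
  rcases isEmpty_or_nonempty X with hE | ⟨⟨d⟩⟩
  · have hsub : Subsingleton G := by
      constructor
      intro a b
      apply hf
      apply Equiv.ext
      intro w
      exact Subsingleton.elim _ _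
    exact hC.base.of_injective G (Multiplicative ℤ) 1 (Function.injective_of_subsingleton _)
      hC.base.int
  · have hTow := hTOW X hX d
    have hCP : ∀ k, C (Pk d k) := by
      refine hMAIN C hC X hX d (Pk d) (Ak d) (Bk d) hTow ?_ ?_
      · exact hPZ C hC X hX d
      · intro k hk
        exact hBC C hC X hX d (Pk d k) hk
    have hTr : ∀ g : G, f g ∈ T X := by
      have h1 : Subgroup.closure S ≤ (T X).comap f := by
        rw [Subgroup.closure_le]
        intro s hs
        exact hT s hs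
      rw [hS] at h1
      intro g
      exact h1 (Subgroup.mem_top g)
    let f' : G →* T X := f.codRestrict (T X) hTr
    have hf' : Function.Injective f' := by
      intro a b hab
      apply hf
      exact congrArg Subtype.val hab
    have hmono : Monotone (Pk d) := monotone_nat_of_le_succ hTow.tw.P_le
    refine Pool.Agent.Y430.SS.t_union C hC.base G (fun k => (Pk d k).comap f') ?_ ?_ ?_
    · intro m n hmn
      exact Subgroup.comap_mono (hmono hmn)
    · intro g
      have hg : g ∈ Subgroup.closure S := by rw [hS]; exact Subgroup.mem_top g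
      induction hg using Subgroup.closure_induction with
      | mem s hs =>
        obtain ⟨k, hk⟩ := hR s hs
        exact ⟨k, hRK X hX d k (f' s) (rk_of_rank k (f' s) hk)⟩
      | one => exact ⟨0, one_mem _⟩
      | mul a b _ _ ha hb =>
        obtain ⟨m, hm⟩ := ha
        obtain ⟨n, hn⟩ := hb
        refine ⟨max m n, mul_mem ?_ ?_⟩
        · exact hmono (le_max_left m n) hm
        · exact hmono (le_max_right m n) hn
      | inv a _ ha =>
        obtain ⟨m, hm⟩ := ha
        exact ⟨m, inv_mem hm⟩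
    · intro k
      refine hC.base.of_injective _ (Pk d k)
        ((f'.comp ((Pk d k).comap f').subtype).codRestrict (Pk d k) (fun x => x.2)) ?_ (hCP k)
      intro a b hab
      apply Subtype.ext
      apply hf'
      exact congrArg Subtype.val hab

end Pool.Agent.T2h30.PF.FIN
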