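import Pool.Agent.T2h30.PF.T_GERM
import Pool.Agent.T2h30.PA.T_LV

/-!
# Project PF (helper30), task LV: `Pk d k` contains the automorphisms with all sections in `Pk d k`
-/

set_option autoImplicit false

namespace Pool.Agent.T2h30.PF.LV

open Pool.Agent.Y110.FJ Pool.Agent.Y462.SS Pool.Agent.T2h30.PA Pool.Agent.T2h30.PF.GERM
open Pool.Agent.T2h30.PA.LV (mk root_mk sec_mk dl root_dl sec_dl dl_conj mkperm_dep cns dl_cray
  dl_dep)

variable {X : Type}

theorem dep_mem (d : X) (k n : ℕ) (g : T X) (h : IsDep n g) : g ∈ Pk d k := by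
  induction k with
  | zero => exact Subgroup.subset_closure (Or.inl ⟨n, h⟩)
  | succ k ih => exact Pk_le d k ih

theorem LV_of_dl [Finite X] (d : X) (k : ℕ) (hdl : ∀ h ∈ Pk d k, dl d h ∈ Pk d k) (g : T X)
    (hg : ∀ x, sec g x ∈ Pk d k) : g ∈ Pk d k := by
  classical
  have h0 : ∀ (x : X) (h : T X), h ∈ Pk d k → dl x h ∈ Pk d k := by
    intro x h hh
    rw [dl_conj d x h]
    have h1 := dep_mem d k 1 _ (mkperm_dep (Equiv.swap x d))
    exact mul_mem (mul_mem h1 (hdl h hh)) (inv_mem h1)
  have h1 : ∀ (F : Finset X) (g : T X), root g = 1 → (∀ x, sec g x ∈ Pk d k) →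
      (∀ x, x ∉ F → sec g x = 1) → g ∈ Pk d k := by
    intro F
    induction F using Finset.induction_on with
    | empty =>
      intro g h1 _ h2
      have h3 : g = 1 := by
        apply T_ext
        · rw [h1, root_one]
        · intro x
          rw [h2 x (Finset.notMem_empty x), sec_one]
      rw [h3]
      exact one_mem _
    | insert a F _ ih =>
      intro g h1 h2 h3
      have h4 : g = g * (dl a (sec g a))⁻¹ * dl a (sec g a) := by group
      have hs : ∀ x, sec (g * (dl a (sec g a))⁻¹) x = if x = a then 1 else sec g x := by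
        intro x
        rw [sec_mul, sec_inv, root_inv, root_dl, inv_one, Equiv.Perm.one_apply, sec_dl]
        split_ifs with h5
        · rw [h5, mul_inv_cancel]
        · rw [inv_one, mul_one]
      rw [h4]
      refine mul_mem (ih _ ?_ ?_ ?_) (h0 a _ (h2 a))
      · rw [root_mul, root_inv, root_dl, h1, inv_one, mul_one]
      · intro x
        rw [hs]
        split_ifs
        · exact one_mem _
        · exact h2 x
      · intro x hx
        rw [hs]
        split_ifs with h5
        · rfl
        · exact h3 x (by rw [Finset.mem_insert]; tauto)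
  have h2 : g = g * (mk (fun _ => 1) (root g))⁻¹ * mk (fun _ => 1) (root g) := by group
  have := Fintype.ofFinite X
  rw [h2]
  refine mul_mem (h1 Finset.univ _ ?_ ?_ ?_) (dep_mem d k 1 _ (mkperm_dep _))
  · rw [root_mul, root_inv, root_mk, mul_inv_cancel]
  · intro x
    rw [sec_mul, sec_inv, sec_mk, inv_one, mul_one]
    exact hg _
  · intro x hx
    exact absurd (Finset.mem_univ x) hx

theorem dl_Bs (d : X) (Q : Subgroup (T X)) (b : T X) (hb : b ∈ Bs d Q) : dl d b ∈ Bs d Q := by
  classical
  have h1 : ∀ n, sd d (n + 1) (dl d b) = sd d n b := by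
    intro n
    show sd d n (sec (dl d b) d) = _
    rw [sec_dl, if_pos rfl]
  obtain ⟨hb1, hb2, hb3⟩ := hb
  refine ⟨fun n => ?_, fun n x hx => ?_, (hb3.union (Set.finite_singleton 1)).subset ?_⟩
  · cases n with
    | zero =>
      show root (dl d b) d = d
      rw [root_dl]
      rfl
    | succ n =>
      rw [h1]
      exact hb1 n
  · cases n with
    | zero =>
      show sec (dl d b) x ∈ Q
      rw [sec_dl, if_neg hx]
      exact one_mem _
    | succ n =>
      rw [h1]
      exact hb2 n x hx
  · rintro _ ⟨n, x, hx, rfl⟩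
    cases n with
    | zero =>
      right
      show sec (dl d b) x = 1
      rw [sec_dl, if_neg hx]
    | succ n =>
      left
      rw [h1]
      exact ⟨n, x, hx, rfl⟩

theorem main [Finite X] (d : X) (k : ℕ) : ∀ g : T X, (∀ x, sec g x ∈ Pk d k) → g ∈ Pk d k := by
  classical
  induction k with
  | zero =>
    apply LV_of_dl
    have h1 : Pz d ≤ (Pz d).comap (dl d) := by
      conv_lhs => rw [Pz]
      rw [Subgroup.closure_le]
      rintro g (⟨n, hn⟩ | ⟨ξ, rfl⟩)
      · exact Subgroup.subset_closure (Or.inl ⟨n + 1, dl_dep d n g hn⟩)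
      · show dl d (cray d ξ) ∈ Pz d
        rw [dl_cray]
        exact Subgroup.subset_closure (Or.inr ⟨_, rfl⟩)
    exact fun h hh => h1 hh
  | succ k ih =>
    apply LV_of_dl
    have hle : Pk d k ≤ Pk d (k + 1) := Pk_le d k
    have h1 : Pk d (k + 1) ≤ (Pk d (k + 1)).comap (dl d) := by
      show Pk d k ⊔ Bs d (Pk d k) ≤ _
      apply sup_le
      · intro h hh
        show dl d h ∈ Pk d (k + 1)
        apply hle
        apply ih
        intro x
        rw [sec_dl]
        split_ifs
        · exact hh
        · exact one_mem _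
      · intro b hb
        exact (le_sup_right : Bs d (Pk d k) ≤ Pk d k ⊔ Bs d (Pk d k)) (dl_Bs d _ b hb)
    exact fun h hh => h1 hh

theorem t_LV : S_LV := by
  intro X hX d k g hg
  exact main d k g hg

end Pool.Agent.T2h30.PF.LV
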