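import Pool.Agent.T2h30.PF.T_LIM
import Pool.Agent.T2h30.PF.T_FOLD

/-! Project PF (helper30), task STEP: one step in the edge group of the extra leaf. -/

set_option autoImplicit false

namespace Pool.Agent.T2h30.PF.STEP

open Pool.Agent.Y110.FJ Pool.Agent.Y462.SS Pool.Agent.T2h30.PA Pool.Agent.T2h30.PF.LIM
open Pool.Agent.T2h30.PF.FOLD (star_sub)

variable {X : Type} {d : X} {P B : ℕ → Subgroup (T X)} {ι : Type} {c E : ι → ℕ}

theorem Ky_le_P (ht : Tw0 d P B) {e : ℕ} (hce : ∀ i, c i < e) {K : Subgroup (T X)} (h : K ≤ P e)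
    (j : Option (ι × Bool)) : Ky P B K c j ≤ P e := by
  cases j with
  | none => exact h
  | some j => exact Kf_le_P ht hce j

theorem Ky_le_L (ht : Tw0 d P B) {e : ℕ} (hcE : ∀ i, c i ≤ E i) {K : Subgroup (T X)}
    (h : K ≤ B (e + 1)) (j : Option (ι × Bool)) : Ky P B K c j ≤ Lx P B e E j := by
  cases j with
  | none => exact h
  | some j => exact Kf_le_Lf ht hcE j

section

variable {S : Type} [Group S]

/-- the center and the extra leaf as the leaves of a layer -/
def l2 (e : ℕ) (sC : P e →* S) (sN : B (e + 1) →* S) :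
    ∀ j : Unit × Bool, Lf P B (fun _ : Unit => e) j →* S
  | (_, false) => sC
  | (_, true) => sN

theorem l2_inj (e : ℕ) (sC : P e →* S) (sN : B (e + 1) →* S) (h1 : Function.Injective sC)
    (h2 : Function.Injective sN) : ∀ j, Function.Injective (l2 e sC sN j)
  | (_, false) => h1
  | (_, true) => h2

/-- the recursion on the center -/
noncomputable def rC (ht : Tw0 d P B) (e : ℕ) (sC : P e →* S) (sN : B (e + 1) →* S) :
    P e →* Wr X S := lr (l2 e sC sN) ht ((), false)

/-- the recursion on the extra leaf -/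
noncomputable def rN (ht : Tw0 d P B) (e : ℕ) (sC : P e →* S) (sN : B (e + 1) →* S) :
    B (e + 1) →* Wr X S := lr (l2 e sC sN) ht ((), true)

theorem rC_p (ht : Tw0 d P B) (e : ℕ) (sC : P e →* S) (sN : B (e + 1) →* S) (g : P e) :
    (rC ht e sC sN g).p = root g.1 := lr_p (l2 e sC sN) ht ((), false) g

theorem rN_p (ht : Tw0 d P B) (e : ℕ) (sC : P e →* S) (sN : B (e + 1) →* S) (g : B (e + 1)) :
    (rN ht e sC sN g).p = root g.1 := lr_p (l2 e sC sN) ht ((), true) g

theorem rC_s (ht : Tw0 d P B) (e : ℕ) (sC : P e →* S) (sN : B (e + 1) →* S) (g g' : P e) (x : X)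
    (h : (g' : T X) = sec g.1 x) : (rC ht e sC sN g).s x = sC g' :=
  lr_F (l2 e sC sN) ht () g x g' h

theorem rN_d (ht : Tw0 d P B) (e : ℕ) (sC : P e →* S) (sN : B (e + 1) →* S) (g g' : B (e + 1))
    (h : (g' : T X) = sec g.1 d) : (rN ht e sC sN g).s d = sN g' :=
  lr_T (l2 e sC sN) ht () g g' h

theorem rN_o (ht : Tw0 d P B) (e : ℕ) (sC : P e →* S) (sN : B (e + 1) →* S) (g : B (e + 1))
    (x : X) (hx : x ≠ d) (g' : P e) (h : (g' : T X) = sec g.1 x) :
    (rN ht e sC sN g).s x = sC g' :=
  lr_O (l2 e sC sN) ht () g x hx g' h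

end

theorem t_STEP : S_STEP := by
  intro hTT C hC X hX d P B ht ι c E e hcE hce K K' hKP hKB hKP' hKB' hsec h0
  have hK1 := Ky_le_P ht hce hKP
  have hK2 := Ky_le_L ht hcE hKB
  have hK1' := Ky_le_P ht hce hKP'
  have hK2' := Ky_le_L ht hcE hKB'
  obtain ⟨hiC, hiL⟩ := star_sub (P e) (Lx P B e E) (Ky P B K c) hK1 hK2
  have hglue := star_glue (fun j : Option (ι × Bool) => incl (Ky P B K c j) (P e))
    (fun j => incl (Ky P B K c j) (Lx P B e E j))
  obtain ⟨sC, hsC⟩ : ∃ s : P e →* SPy P B e K c E, s =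
    starC (fun j : Option (ι × Bool) => incl (Ky P B K c j) (P e))
      (fun j => incl (Ky P B K c j) (Lx P B e E j)) := ⟨_, rfl⟩
  obtain ⟨sL, hsL⟩ : ∃ s : (∀ j, Lx P B e E j →* SPy P B e K c E), s =
    starL (fun j : Option (ι × Bool) => incl (Ky P B K c j) (P e))
      (fun j => incl (Ky P B K c j) (Lx P B e E j)) := ⟨_, rfl⟩
  -- the identifications
  have gl : ∀ (j : Option (ι × Bool)) (a : P e) (b : Lx P B e E j), (a : T X) = b →
      (a : T X) ∈ Ky P B K c j → sC a = sL j b := by
    intro j a b hab hk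
    have h1 := hglue j ⟨a, hk⟩
    have h2 : incl (Ky P B K c j) (P e) ⟨a, hk⟩ = a := Subtype.ext (incl_apply (hK1 j) _)
    have h3 : incl (Ky P B K c j) (Lx P B e E j) ⟨a, hk⟩ = b :=
      Subtype.ext ((incl_apply (hK2 j) _).trans hab)
    rw [h2, h3] at h1
    rw [hsC, hsL]
    exact h1
  rw [← hsC] at hiC
  have hiL' : ∀ j, Function.Injective (sL j) := by rw [hsL]; exact hiL
  let g : ∀ j : Option (ι × Bool), Lx P B e E j →* Wr X (SPy P B e K c E) := fun j =>
    match j with
    | none => rN ht e sC (sL none)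
    | some j => lr (fun j => sL (some j)) ht j
  refine hTT C hC (P e) (Option (ι × Bool)) (fun j => Lx P B e E j) (fun j => Ky P B K' c j)
    (fun j => incl (Ky P B K' c j) (P e)) (fun j => incl (Ky P B K' c j) (Lx P B e E j))
    (Wr X (SPy P B e K c E)) (rC ht e sC (sL none)) g ?_ ?_ ?_
    (Pool.Agent.Y812.SS.t_wr C hC.base X (SPy P B e K c E) hX h0)
  · intro j k
    have e1 : ((incl (Ky P B K' c j) (P e) k : P e) : T X) = k := incl_apply (hK1' j) k
    have e2 : ((incl (Ky P B K' c j) (Lx P B e E j) k : Lx P B e E j) : T X) = k :=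
      incl_apply (hK2' j) k
    cases j with
    | none =>
      have hk : (k : T X) ∈ K' := k.2
      have hr : root (k : T X) d = d := ht.B_root _ _ (hKB' hk)
      apply Wr.ext
      · funext x
        rw [rC_s ht e sC (sL none) _ ⟨sec k.1 x, ht.P_sec _ _ (hKP' hk) x⟩ x (by rw [e1])]
        by_cases hx : x = d
        · subst hx
          refine Eq.trans ?_ (rN_d ht e sC (sL none) _ ⟨sec k.1 x, ht.B_sec _ _ (hKB' hk)⟩
            (by rw [e2])).symm
          exact gl none _ _ rfl (hsec _ hk)
        · refine Eq.trans ?_ (rN_o ht e sC (sL none) _ x hx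
            ⟨sec k.1 x, ht.P_sec _ _ (hKP' hk) x⟩ (by rw [e2])).symm
          rfl
      · exact (rC_p ht e sC (sL none) _).trans
          ((congrArg root (e1.trans e2.symm)).trans (rN_p ht e sC (sL none) _).symm)
    | some j =>
      obtain ⟨i, b⟩ := j
      apply Wr.ext
      · funext x
        have hP : sec k.1 x ∈ P e := ht.P_sec _ _ (hK1' (some (i, b)) k.2) x
        rw [rC_s ht e sC (sL none) _ ⟨sec k.1 x, hP⟩ x (by rw [e1])]
        cases b with
        | false =>
          have hk : (k : T X) ∈ P (c i) := k.2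
          have hs : sec k.1 x ∈ P (c i) := ht.P_sec _ _ hk x
          refine Eq.trans ?_ (lr_F (fun j => sL (some j)) ht i _ x
            ⟨sec k.1 x, Kf_le_Lf ht hcE (i, false) hs⟩ (by rw [e2])).symm
          exact gl (some (i, false)) _ _ rfl hs
        | true =>
          have hk : (k : T X) ∈ B (c i + 1) := k.2
          by_cases hx : x = d
          · subst hx
            have hs : sec k.1 x ∈ B (c i + 1) := ht.B_sec _ _ hk
            refine Eq.trans ?_ (lr_T (fun j => sL (some j)) ht i _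
              ⟨sec k.1 x, Kf_le_Lf ht hcE (i, true) hs⟩ (by rw [e2])).symm
            exact gl (some (i, true)) _ _ rfl hs
          · have hs : sec k.1 x ∈ P (c i) := ht.B_off _ _ hk x hx
            refine Eq.trans ?_ (lr_O (fun j => sL (some j)) ht i _ x hx
              ⟨sec k.1 x, Kf_le_Lf ht hcE (i, false) hs⟩ (by rw [e2])).symm
            exact gl (some (i, false)) _ _ rfl hs
      · exact (rC_p ht e sC (sL none) _).trans
          ((congrArg root (e1.trans e2.symm)).trans
            (lr_p (fun j => sL (some j)) ht (i, b) _).symm)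
  · exact lr_inj (l2 e sC (sL none)) ht (l2_inj e sC (sL none) hiC (hiL' none)) ((), false)
  · intro j
    cases j with
    | none =>
      exact lr_inj (l2 e sC (sL none)) ht (l2_inj e sC (sL none) hiC (hiL' none)) ((), true)
    | some j => exact lr_inj (fun j => sL (some j)) ht (fun j => hiL' (some j)) j

end Pool.Agent.T2h30.PF.STEP
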