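import Pool.Agent.T2h30.PF.T_STEP

/-! Project PF (helper30), task UNI: increasing unions of the edge groups. -/

set_option autoImplicit false

namespace Pool.Agent.T2h30.PF.UNI

open Pool.Agent.Y110.FJ Pool.Agent.Y462.SS Pool.Agent.T2h30.PA

section

variable {G : Type} [Group G] {J : Type} (A : Subgroup G) (L : J → Subgroup G)

/-- the star of subgroups -/
abbrev SS (K : J → Subgroup G) : Type :=
  Star (fun j => incl (K j) A) (fun j => incl (K j) (L j))

/-- the center -/
noncomputable abbrev sC (K : J → Subgroup G) : A →* SS A L K :=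
  starC (fun j => incl (K j) A) (fun j => incl (K j) (L j))

/-- the leaves -/
noncomputable abbrev sL (K : J → Subgroup G) (j : J) : L j →* SS A L K :=
  starL (fun j => incl (K j) A) (fun j => incl (K j) (L j)) j

variable {A L}

theorem glue (K : J → Subgroup G) (hA : ∀ j, K j ≤ A) (hL : ∀ j, K j ≤ L j) (j : J) (a : A)
    (b : L j) (h : (a : G) = b) (hk : (a : G) ∈ K j) : sC A L K a = sL A L K j b := by
  have h1 := star_glue (fun j => incl (K j) A) (fun j => incl (K j) (L j)) j ⟨a, hk⟩
  have h2 : incl (K j) A ⟨a, hk⟩ = a := Subtype.ext (incl_apply (hA j) _)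
  have h3 : incl (K j) (L j) ⟨a, hk⟩ = b := Subtype.ext ((incl_apply (hL j) _).trans h)
  rw [h2, h3] at h1
  exact h1

theorem compat {K K' : J → Subgroup G} (h : ∀ j, K j ≤ K' j) (hA : ∀ j, K' j ≤ A)
    (hL : ∀ j, K' j ≤ L j) (j : J) (k : K j) :
    sC A L K' (incl (K j) A k) = sL A L K' j (incl (K j) (L j) k) := by
  apply glue K' hA hL
  · rw [incl_apply ((h j).trans (hA j)), incl_apply ((h j).trans (hL j))]
  · rw [incl_apply ((h j).trans (hA j))]
    exact h j k.2

/-- the homomorphism to the star with larger edge groups -/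
noncomputable def mor {K K' : J → Subgroup G} (h : ∀ j, K j ≤ K' j) (hA : ∀ j, K' j ≤ A)
    (hL : ∀ j, K' j ≤ L j) : SS A L K →* SS A L K' :=
  starLift (fun j => incl (K j) A) (fun j => incl (K j) (L j)) (sC A L K') (sL A L K')
    (compat h hA hL)

theorem mor_C {K K' : J → Subgroup G} (h : ∀ j, K j ≤ K' j) (hA : ∀ j, K' j ≤ A)
    (hL : ∀ j, K' j ≤ L j) (a : A) : mor h hA hL (sC A L K a) = sC A L K' a :=
  starLift_C _ _ _ _ _ a

theorem mor_L {K K' : J → Subgroup G} (h : ∀ j, K j ≤ K' j) (hA : ∀ j, K' j ≤ A)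
    (hL : ∀ j, K' j ≤ L j) (j : J) (l : L j) : mor h hA hL (sL A L K j l) = sL A L K' j l := by
  rw [mor]
  exact starLift_L (fun j => incl (K j) A) (fun j => incl (K j) (L j)) _ (sL A L K') _ j l

theorem mor_comp {K K' K'' : J → Subgroup G} (h : ∀ j, K j ≤ K' j) (h' : ∀ j, K' j ≤ K'' j)
    (hA : ∀ j, K' j ≤ A) (hL : ∀ j, K' j ≤ L j) (hA' : ∀ j, K'' j ≤ A) (hL' : ∀ j, K'' j ≤ L j)
    (h'' : ∀ j, K j ≤ K'' j) (x : SS A L K) :
    mor h' hA' hL' (mor h hA hL x) = mor h'' hA' hL' x := by
  have : (mor h' hA' hL').comp (mor h hA hL) = mor h'' hA' hL' := by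
    apply star_ext
    · intro a
      rw [MonoidHom.comp_apply, mor_C, mor_C, mor_C]
    · intro j l
      rw [MonoidHom.comp_apply, mor_L, mor_L, mor_L]
  exact DFunLike.congr_fun this x

theorem mor_id {K : J → Subgroup G} (h : ∀ j, K j ≤ K j) (hA : ∀ j, K j ≤ A)
    (hL : ∀ j, K j ≤ L j) (x : SS A L K) : mor h hA hL x = x := by
  have : mor h hA hL = MonoidHom.id _ := by
    apply star_ext
    · intro a
      rw [mor_C]
      rfl
    · intro j l
      rw [mor_L]
      rfl
  exact DFunLike.congr_fun this x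

/-- increasing unions of the edge groups -/
theorem uni (C : ∀ (G : Type) [Group G], Prop) (hC : ClosedE C) (K : ℕ → J → Subgroup G)
    (K' : J → Subgroup G) (hmono : ∀ m n, m ≤ n → ∀ j, K m j ≤ K n j)
    (hK' : ∀ n j, K n j ≤ K' j) (hA' : ∀ j, K' j ≤ A) (hL' : ∀ j, K' j ≤ L j)
    (hex : ∀ j, ∀ k ∈ K' j, ∃ n, k ∈ K n j) (h0 : ∀ n, C (SS A L (K n))) : C (SS A L K') := by
  have hA : ∀ n j, K n j ≤ A := fun n j => (hK' n j).trans (hA' j)
  have hL : ∀ n j, K n j ≤ L j := fun n j => (hK' n j).trans (hL' j)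
  refine hC.base.colim ℕ (fun i j => ⟨max i j, le_max_left i j, le_max_right i j⟩)
    (fun n => SS A L (K n)) (fun m n h => mor (hmono m n h) (hA n) (hL n)) (SS A L K')
    (fun n => mor (hK' n) hA' hL') ?_ ?_ ?_ ?_ ?_ h0
  · intro n h x
    exact mor_id _ (hA n) (hL n) x
  · intro i j k h h' x
    exact mor_comp _ _ _ _ _ _ _ x
  · intro i j h x
    exact mor_comp _ _ _ _ _ _ _ x
  · intro y
    refine ⟨0, ?_⟩
    refine star_ind _ _ (P := fun y => ∃ x, mor (hK' 0) hA' hL' x = y) ?_ ?_ ?_ y
    · exact ⟨1, map_one _⟩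
    · rintro a y ⟨x, rfl⟩
      exact ⟨sC A L (K 0) a * x, by rw [map_mul, mor_C]⟩
    · rintro j l y ⟨x, rfl⟩
      exact ⟨sL A L (K 0) j l * x, by rw [map_mul, mor_L]⟩
  · intro i x hx
    let M : Subgroup (SS A L (K i)) :=
      { carrier := {x | ∃ (j : ℕ) (h : i ≤ j), mor (hmono i j h) (hA j) (hL j) x = 1}
        one_mem' := ⟨i, le_rfl, map_one _⟩
        mul_mem' := by
          rintro a b ⟨j, hj, ha⟩ ⟨k, hk, hb⟩
          refine ⟨max j k, hj.trans (le_max_left j k), ?_⟩
          have h1 := mor_comp (hmono i j hj) (hmono j (max j k) (le_max_left j k)) (hA j) (hL j)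
            (hA _) (hL _) (hmono i (max j k) (hj.trans (le_max_left j k))) a
          have h2 := mor_comp (hmono i k hk) (hmono k (max j k) (le_max_right j k)) (hA k) (hL k)
            (hA _) (hL _) (hmono i (max j k) (hj.trans (le_max_left j k))) b
          rw [ha, map_one] at h1
          rw [hb, map_one] at h2
          rw [map_mul, ← h1, ← h2, mul_one]
        inv_mem' := by
          rintro a ⟨j, hj, ha⟩
          exact ⟨j, hj, by rw [map_inv, ha, inv_one]⟩ }
    have hM : ∀ x, x ∈ M ↔ ∃ (j : ℕ) (h : i ≤ j), mor (hmono i j h) (hA j) (hL j) x = 1 :=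
      fun x => Iff.rfl
    have hn : M.Normal := by
      constructor
      rintro a ⟨j, hj, ha⟩ g
      exact ⟨j, hj, by rw [map_mul, map_mul, ha, mul_one, ← map_mul, mul_inv_cancel, map_one]⟩
    clear_value M
    have hcomp : ∀ (j : J) (k : K' j), ((QuotientGroup.mk' M).comp (sC A L (K i)))
        (incl (K' j) A k) =
        ((QuotientGroup.mk' M).comp (sL A L (K i) j)) (incl (K' j) (L j) k) := by
      intro j k
      obtain ⟨n, hn⟩ := hex j k k.2
      rw [MonoidHom.comp_apply, MonoidHom.comp_apply]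
      refine QuotientGroup.eq.2 ?_
      rw [hM]
      refine ⟨max i n, le_max_left i n, ?_⟩
      rw [map_mul, map_inv, mor_C, mor_L, inv_mul_eq_one]
      apply glue (K (max i n)) (hA _) (hL _)
      · rw [incl_apply (hA' j), incl_apply (hL' j)]
      · rw [incl_apply (hA' j)]
        exact hmono n (max i n) (le_max_right i n) j hn
    have hid : (starLift (fun j => incl (K' j) A) (fun j => incl (K' j) (L j))
        ((QuotientGroup.mk' M).comp (sC A L (K i)))
        (fun j => (QuotientGroup.mk' M).comp (sL A L (K i) j)) hcomp).comp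
        (mor (hK' i) hA' hL') = QuotientGroup.mk' M := by
      apply star_ext
      · intro a
        rw [MonoidHom.comp_apply, mor_C, starLift_C]
        rfl
      · intro j l
        rw [MonoidHom.comp_apply, mor_L, starLift_L]
        rfl
    have h2 := DFunLike.congr_fun hid x
    rw [MonoidHom.comp_apply, hx, map_one] at h2
    exact (hM x).1 ((QuotientGroup.eq_one_iff x).1 h2.symm)

end

theorem t_UNI : S_UNI := by
  intro C hC X d P B ht ι c E e hcE hce K K' hKP' hKB' hK hKK hex h0
  refine uni (A := P e) (L := fun j => Lx P B e E j) C hC (fun n j => Ky P B (K n) c j)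
    (fun j => Ky P B K' c j) ?_ ?_ (STEP.Ky_le_P ht hce hKP') (STEP.Ky_le_L ht hcE hKB') ?_ h0
  · intro m n h j
    cases j with
    | none => exact monotone_nat_of_le_succ hK h
    | some j => exact le_rfl
  · intro n j
    cases j with
    | none => exact hKK n
    | some j => exact le_rfl
  · intro j k hk
    cases j with
    | none => exact hex k hk
    | some j => exact ⟨0, hk⟩

end Pool.Agent.T2h30.PF.UNI
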